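import Pool.Agent.Lib.H56E.Defs
import Pool.Agent.Lib.H56C.L4

/-!
# A10 (M): the shift

`A10_pair`: `a ≠ b` classes in different clusters, both nonempty. For `x` supported in the class `a`, `y` in the class `b`: `ev R x y x y = |x| ^ 2 P_a(y, y) + |y| ^ 2 P_b(x, x)` (`hP`; for `i`, `k` in `a`, `j`, `l` in `b`), `area2 x y = |x| ^ 2 |y| ^ 2`, so
`P_a(y, y) + P_b(x, x) ≤ - h` for unit vectors. `μ = sSup {P_a(y, y) : |y| = 1, y in b}` (nonempty: `ei j`; bounded above: `x = ei i`).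
`A10`: choose `μ a b` for `a < b` and `- h - μ b a` for `b < a`.
-/

set_option autoImplicit false

open Finset

namespace H56E

open Pool.Agent.H69Hopf
open H30K (KB Cyc)

/-- the form `P a` on vectors -/
def pf {N : ℕ} (P : ℕ → Fin N → Fin N → ℝ) (a : ℕ) (y : Fin N → ℝ) : ℝ := ∑ j, ∑ l, P a j l * (y j * y l)

theorem a10_ev {N : ℕ} {R : Arr N} {s t : Fin N → ℕ} {P : ℕ → Fin N → Fin N → ℝ} (hr : Ref s t)
    (hP : ∀ i j k l, t i ≠ t j → s i = s k → s j = s l → R i j k l = (if i = k then P (s i) j l else 0) + (if j = l then P (s j) i k else 0))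
    {i0 j0 : Fin N} (hij : t i0 ≠ t j0) {x y : Fin N → ℝ} (hx : ∀ i, x i ≠ 0 → s i = s i0) (hy : ∀ j, y j ≠ 0 → s j = s j0) :
    ev R x y x y = dot x x * pf P (s i0) y + dot y y * pf P (s j0) x := by
  classical
  have h1 : ∀ i j k l, R i j k l * x i * y j * x k * y l =
      (if i = k then x i * x k * (P (s i0) j l * (y j * y l)) else 0) + (if j = l then y j * y l * (P (s j0) i k * (x i * x k)) else 0) := by
    intro i j k l
    by_cases hxi : x i = 0
    · rw [hxi]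
      split_ifs <;> ring
    by_cases hyj : y j = 0
    · rw [hyj]
      split_ifs <;> ring
    by_cases hxk : x k = 0
    · rw [hxk]
      split_ifs <;> ring
    by_cases hyl : y l = 0
    · rw [hyl]
      split_ifs <;> ring
    have e1 := hx i hxi
    have e2 := hy j hyj
    have e3 := hx k hxk
    have e4 := hy l hyl
    have ht : t i ≠ t j := by
      rw [hr i i0 e1, hr j j0 e2]
      exact hij
    rw [hP i j k l ht (e1.trans e3.symm) (e2.trans e4.symm), e1, e2]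
    split_ifs <;> ring
  unfold ev
  rw [Finset.sum_congr rfl fun i _ => Finset.sum_congr rfl fun j _ => Finset.sum_congr rfl fun k _ => Finset.sum_congr rfl fun l _ => h1 i j k l]
  simp only [Finset.sum_add_distrib]
  congr 1
  · unfold dot pf
    rw [Finset.sum_mul]
    refine Finset.sum_congr rfl fun i _ => ?_
    rw [Finset.mul_sum]
    refine Finset.sum_congr rfl fun j _ => ?_
    rw [Finset.sum_comm, Finset.mul_sum]
    refine Finset.sum_congr rfl fun l _ => ?_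
    simp only [Finset.sum_ite_eq, Finset.mem_univ, if_true]
  · unfold dot pf
    rw [Finset.sum_comm, Finset.sum_mul]
    refine Finset.sum_congr rfl fun j _ => ?_
    rw [Finset.mul_sum]
    refine Finset.sum_congr rfl fun i _ => ?_
    rw [Finset.mul_sum]
    refine Finset.sum_congr rfl fun k _ => ?_
    simp only [Finset.sum_ite_eq, Finset.mem_univ, if_true]

theorem a10_ineq {N : ℕ} {R : Arr N} {s t : Fin N → ℕ} {P : ℕ → Fin N → Fin N → ℝ} (hr : Ref s t)
    (hP : ∀ i j k l, t i ≠ t j → s i = s k → s j = s l → R i j k l = (if i = k then P (s i) j l else 0) + (if j = l then P (s j) i k else 0))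
    {h : ℝ} (hK : KB h R) {i0 j0 : Fin N} (hij : t i0 ≠ t j0) {x y : Fin N → ℝ} (hx : ∀ i, x i ≠ 0 → s i = s i0) (hy : ∀ j, y j ≠ 0 → s j = s j0)
    (hxx : 0 < dot x x) (hyy : 0 < dot y y) : pf P (s i0) y / dot y y ≤ -h - pf P (s j0) x / dot x x := by
  have h1 := hK x y
  have hxy : dot x y = 0 := by
    unfold dot
    refine Finset.sum_eq_zero fun i _ => ?_
    by_cases hxi : x i = 0
    · rw [hxi, zero_mul]
    by_cases hyi : y i = 0
    · rw [hyi, mul_zero]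
    exfalso
    apply hij
    rw [← hr i i0 (hx i hxi), ← hr i j0 (hy i hyi)]
  rw [a10_ev hr hP hij hx hy, area2_eq, hxy] at h1
  rw [div_le_iff₀ hyy]
  have h2 : (-h - pf P (s j0) x / dot x x) * dot y y = (-(h * (dot x x * dot y y)) - dot y y * pf P (s j0) x) / dot x x := by
    field_simp
  rw [h2, le_div_iff₀ hxx]
  linarith

theorem a10_zero {N : ℕ} (P : ℕ → Fin N → Fin N → ℝ) (a : ℕ) (c : ℝ) {y : Fin N → ℝ} (h : ¬ 0 < dot y y) : pf P a y ≤ c * dot y y := by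
  have h0 : dot y y = 0 := le_antisymm (not_lt.1 h) (dot_self_nonneg y)
  have h1 : ∀ i, y i = 0 := by
    intro i
    have h4 := (Finset.sum_eq_zero_iff_of_nonneg (fun i _ => mul_self_nonneg (y i))).1 h0 i (Finset.mem_univ _)
    exact mul_self_eq_zero.1 h4
  rw [h0, mul_zero]
  unfold pf
  rw [Finset.sum_eq_zero fun j _ => Finset.sum_eq_zero fun l _ => by rw [h1 j]; ring]

theorem a10_ei {N : ℕ} (i : Fin N) : 0 < dot (ei i) (ei i) := by
  classical
  unfold dot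
  exact Finset.sum_pos' (fun j _ => mul_self_nonneg _) ⟨i, Finset.mem_univ _, by simp [ei]⟩

theorem a10_ei' {N : ℕ} {i j : Fin N} (h : ei i j ≠ 0) : j = i := by
  classical
  by_contra hne
  apply h
  show (Pi.single i (1 : ℝ) : Fin N → ℝ) j = 0
  exact Pi.single_eq_of_ne hne _

theorem A10_pair {N : ℕ} {R : Arr N} {s t : Fin N → ℕ} {P : ℕ → Fin N → Fin N → ℝ} (hr : Ref s t)
    (hP : ∀ i j k l, t i ≠ t j → s i = s k → s j = s l → R i j k l = (if i = k then P (s i) j l else 0) + (if j = l then P (s j) i k else 0))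
    {h : ℝ} (hK : KB h R) {i0 j0 : Fin N} (hij : t i0 ≠ t j0) :
    ∃ μ : ℝ, (∀ y : Fin N → ℝ, (∀ j, y j ≠ 0 → s j = s j0) → pf P (s i0) y ≤ μ * dot y y) ∧ ∀ x : Fin N → ℝ, (∀ i, x i ≠ 0 → s i = s i0) → pf P (s j0) x ≤ (-h - μ) * dot x x := by
  classical
  have hi : ∀ i, (ei i0 : Fin N → ℝ) i ≠ 0 → s i = s i0 := fun i hi => by rw [a10_ei' hi]
  have hj : ∀ i, (ei j0 : Fin N → ℝ) i ≠ 0 → s i = s j0 := fun i hi => by rw [a10_ei' hi]
  obtain ⟨S, hS⟩ : ∃ S : Set ℝ, S = {r | ∃ y : Fin N → ℝ, (∀ j, y j ≠ 0 → s j = s j0) ∧ 0 < dot y y ∧ r = pf P (s i0) y / dot y y} := ⟨_, rfl⟩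
  have hne : S.Nonempty := by
    rw [hS]
    exact ⟨_, ei j0, hj, a10_ei j0, rfl⟩
  have hub : ∀ x : Fin N → ℝ, (∀ i, x i ≠ 0 → s i = s i0) → 0 < dot x x → ∀ r ∈ S, r ≤ -h - pf P (s j0) x / dot x x := by
    intro x hx hxx r hr'
    rw [hS] at hr'
    obtain ⟨y, hy, hyy, rfl⟩ := hr'
    exact a10_ineq hr hP hK hij hx hy hxx hyy
  have hbd : BddAbove S := ⟨_, fun r hr' => hub (ei i0) hi (a10_ei i0) r hr'⟩
  refine ⟨sSup S, ?_, ?_⟩
  · intro y hy
    by_cases h0 : 0 < dot y y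
    · have h1 : pf P (s i0) y / dot y y ≤ sSup S := le_csSup hbd (by rw [hS]; exact ⟨y, hy, h0, rfl⟩)
      rwa [div_le_iff₀ h0] at h1
    · exact a10_zero P _ _ h0
  · intro x hx
    by_cases h0 : 0 < dot x x
    · have h1 : sSup S ≤ -h - pf P (s j0) x / dot x x := csSup_le hne (hub x hx h0)
      have h2 : pf P (s j0) x / dot x x ≤ -h - sSup S := by linarith
      rwa [div_le_iff₀ h0] at h2
    · exact a10_zero P _ _ h0

theorem A10 {N : ℕ} {R : Arr N} {s t : Fin N → ℕ} {P : ℕ → Fin N → Fin N → ℝ} (hr : Ref s t)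
    (hP : ∀ i j k l, t i ≠ t j → s i = s k → s j = s l → R i j k l = (if i = k then P (s i) j l else 0) + (if j = l then P (s j) i k else 0))
    {h : ℝ} (hK : KB h R) :
    ∃ lam : ℕ → ℕ → ℝ, (∀ a b, a ≠ b → lam a b + lam b a = -h) ∧ ∀ i0 j0, t i0 ≠ t j0 → ∀ y : Fin N → ℝ, (∀ j, y j ≠ 0 → s j = s j0) → pf P (s i0) y ≤ lam (s i0) (s j0) * dot y y := by
  classical
  have hex : ∀ a b : ℕ, ∃ μ : ℝ, ∀ i0 j0 : Fin N, t i0 ≠ t j0 → s i0 = a → s j0 = b →
      (∀ y : Fin N → ℝ, (∀ j, y j ≠ 0 → s j = b) → pf P a y ≤ μ * dot y y) ∧ ∀ x : Fin N → ℝ, (∀ i, x i ≠ 0 → s i = a) → pf P b x ≤ (-h - μ) * dot x x := by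
    intro a b
    by_cases hab : ∃ i0 j0 : Fin N, t i0 ≠ t j0 ∧ s i0 = a ∧ s j0 = b
    · obtain ⟨i0, j0, hij, rfl, rfl⟩ := hab
      obtain ⟨μ, h1, h2⟩ := A10_pair hr hP hK hij
      exact ⟨μ, fun _ _ _ _ _ => ⟨h1, h2⟩⟩
    · exact ⟨0, fun i0 j0 h1 h2 h3 => absurd ⟨i0, j0, h1, h2, h3⟩ hab⟩
  obtain ⟨M, hM⟩ : ∃ M : ℕ → ℕ → ℝ, ∀ a b, ∀ i0 j0 : Fin N, t i0 ≠ t j0 → s i0 = a → s j0 = b →
      (∀ y : Fin N → ℝ, (∀ j, y j ≠ 0 → s j = b) → pf P a y ≤ M a b * dot y y) ∧ ∀ x : Fin N → ℝ, (∀ i, x i ≠ 0 → s i = a) → pf P b x ≤ (-h - M a b) * dot x x :=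
    ⟨fun a b => Classical.choose (hex a b), fun a b => Classical.choose_spec (hex a b)⟩
  refine ⟨fun a b => if a < b then M a b else -h - M b a, ?_, ?_⟩
  · intro a b hab
    rcases lt_or_gt_of_ne hab with h1 | h1
    · show (if a < b then M a b else -h - M b a) + (if b < a then M b a else -h - M a b) = -h
      rw [if_pos h1, if_neg (not_lt.2 h1.le)]
      ring
    · show (if a < b then M a b else -h - M b a) + (if b < a then M b a else -h - M a b) = -h
      rw [if_pos h1, if_neg (not_lt.2 h1.le)]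
      ring
  · intro i0 j0 hij y hy
    have hne : s i0 ≠ s j0 := fun h1 => hij (hr i0 j0 h1)
    show pf P (s i0) y ≤ (if s i0 < s j0 then M (s i0) (s j0) else -h - M (s j0) (s i0)) * dot y y
    rcases lt_or_gt_of_ne hne with h1 | h1
    · rw [if_pos h1]
      exact (hM (s i0) (s j0) i0 j0 hij rfl rfl).1 y hy
    · rw [if_neg (not_lt.2 h1.le)]
      exact (hM (s j0) (s i0) j0 i0 (Ne.symm hij) rfl rfl).2 y hy

end H56E
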