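import Pool.Agent.Lib.H56E.A9
import Pool.Agent.Lib.H56E.A10

/-!
# A11 (M): the decomposition

`X = - R - h idA` (`xr h R`). `lam` from `A10`. `Q a b j l = if s j = b ∧ s l = b ∧ t j ≠ t a then lam (s a) b δ_jl - P (s a) j l else 0` for an index `a` and a class `b`. It is symmetric (`hR.pair` with `i = k = a`: for `t a ≠ t j`, `s j = s l`, `j ≠ l`: `R a j a l = P (s a) j l`) and positive semidefinite (`A10` for the
vector `y j = if s j = b then x j else 0`; if `b` is a class of the cluster of `a` or no class, `Q = 0`). Then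
`X = ∑ c ∈ image t, blk t c X + ∑ a, ∑ b ∈ image s, kna a (Q a b)`: for `t i = t j` a nonzero component `X i j k l` has all indices in one cluster (`hT`, `hr`); for `t i ≠ t j` and `s i = s k`, `s j = s l`: `hP` and `lam (s i) (s j) + lam (s j) (s i) = -h`; for `s i = s l`, `s j = s k`: skew symmetry;
otherwise all terms vanish. `A9`.
-/

set_option autoImplicit false

open Finset

namespace H56E

open Pool.Agent.H69Hopf
open H30K (KB Cyc)

/-- `- R - h idA` -/
def xr {N : ℕ} (h : ℝ) (R : Arr N) : Arr N := fun i j k l => - R i j k l - h * idA N i j k l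

/-- the forms `Q a b` of the decomposition -/
def A11_Q {N : ℕ} (s t : Fin N → ℕ) (P : ℕ → Fin N → Fin N → ℝ) (lam : ℕ → ℕ → ℝ) (a : Fin N) (b : ℕ) (j l : Fin N) : ℝ :=
  if s j = b ∧ s l = b ∧ t j ≠ t a then lam (s a) b * (if j = l then 1 else 0) - P (s a) j l else 0

/-- the sum of the forms `Q a b` over `b` -/
def A11_G {N : ℕ} (s t : Fin N → ℕ) (P : ℕ → Fin N → Fin N → ℝ) (lam : ℕ → ℕ → ℝ) (a : Fin N) (j l : Fin N) : ℝ :=
  if s j = s l ∧ t j ≠ t a then lam (s a) (s j) * (if j = l then 1 else 0) - P (s a) j l else 0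

/-- the mixed part -/
def A11_M {N : ℕ} (s t : Fin N → ℕ) (P : ℕ → Fin N → Fin N → ℝ) (lam : ℕ → ℕ → ℝ) : Arr N := fun i j k l =>
  (if i = k then A11_G s t P lam i j l else 0) + (if j = l then A11_G s t P lam j i k else 0) - (if i = l then A11_G s t P lam i j k else 0) -
    (if j = k then A11_G s t P lam j i l else 0)

theorem A11_sumQ {N : ℕ} (s t : Fin N → ℕ) (P : ℕ → Fin N → Fin N → ℝ) (lam : ℕ → ℕ → ℝ) (a j l : Fin N) :
    ∑ b ∈ (Finset.univ : Finset (Fin N)).image s, A11_Q s t P lam a b j l = A11_G s t P lam a j l := by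
  classical
  by_cases hjl : s j = s l
  · rw [Finset.sum_eq_single (s j)]
    · unfold A11_Q A11_G
      by_cases h : t j ≠ t a
      · rw [if_pos (show s j = s j ∧ s l = s j ∧ t j ≠ t a from ⟨rfl, hjl.symm, h⟩), if_pos (show s j = s l ∧ t j ≠ t a from ⟨hjl, h⟩)]
      · rw [if_neg fun h' => h h'.2.2, if_neg fun h' => h h'.2]
    · intro b _ hb
      unfold A11_Q
      exact if_neg fun h' => hb h'.1.symm
    · intro h
      exact absurd (Finset.mem_image_of_mem s (Finset.mem_univ j)) h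
  · unfold A11_G
    rw [if_neg fun h' => hjl h'.1]
    refine Finset.sum_eq_zero fun b _ => ?_
    unfold A11_Q
    exact if_neg fun h' => hjl (h'.1.trans h'.2.1.symm)

theorem A11_pick {N : ℕ} (f : Fin N → ℝ) (i k : Fin N) : (∑ a, if i = a ∧ k = a then f a else 0) = if i = k then f i else 0 := by
  classical
  by_cases hik : i = k
  · rw [if_pos hik, Finset.sum_eq_single i]
    · exact if_pos ⟨rfl, hik.symm⟩
    · intro b _ hb
      exact if_neg fun h => hb h.1.symm
    · intro h
      exact absurd (Finset.mem_univ _) h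
  · rw [if_neg hik]
    exact Finset.sum_eq_zero fun a _ => if_neg fun h => hik (h.1.trans h.2.symm)

theorem A11_ite (S : Finset ℕ) (c : Prop) [Decidable c] (f : ℕ → ℝ) : (∑ r ∈ S, if c then f r else 0) = if c then ∑ r ∈ S, f r else 0 := by
  split_ifs
  · rfl
  · exact Finset.sum_const_zero

theorem A11_kna {N : ℕ} (s t : Fin N → ℕ) (P : ℕ → Fin N → Fin N → ℝ) (lam : ℕ → ℕ → ℝ) (i j k l : Fin N) :
    ∑ a, ∑ b ∈ (Finset.univ : Finset (Fin N)).image s, kna a (A11_Q s t P lam a b) i j k l = A11_M s t P lam i j k l := by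
  classical
  have h1 : ∀ a, ∑ b ∈ (Finset.univ : Finset (Fin N)).image s, kna a (A11_Q s t P lam a b) i j k l =
      (if i = a ∧ k = a then A11_G s t P lam a j l else 0) + (if j = a ∧ l = a then A11_G s t P lam a i k else 0) - (if i = a ∧ l = a then A11_G s t P lam a j k else 0) -
        (if j = a ∧ k = a then A11_G s t P lam a i l else 0) := by
    intro a
    unfold kna
    rw [Finset.sum_sub_distrib, Finset.sum_sub_distrib, Finset.sum_add_distrib, A11_ite, A11_ite, A11_ite, A11_ite, A11_sumQ, A11_sumQ, A11_sumQ, A11_sumQ]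
  rw [Finset.sum_congr rfl fun a _ => h1 a, Finset.sum_sub_distrib, Finset.sum_sub_distrib, Finset.sum_add_distrib, A11_pick, A11_pick, A11_pick, A11_pick]
  rfl

theorem A11_blk {N : ℕ} (t : Fin N → ℕ) (X : Arr N) (i j k l : Fin N) :
    ∑ c ∈ (Finset.univ : Finset (Fin N)).image t, blk t c X i j k l = if t i = t j ∧ t i = t k ∧ t i = t l then X i j k l else 0 := by
  classical
  by_cases h : t i = t j ∧ t i = t k ∧ t i = t l
  · rw [if_pos h, Finset.sum_eq_single (t i)]
    · unfold blk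
      exact if_pos ⟨rfl, h.1.symm, h.2.1.symm, h.2.2.symm⟩
    · intro c _ hc
      unfold blk
      exact if_neg fun h' => hc h'.1.symm
    · intro h'
      exact absurd (Finset.mem_image_of_mem t (Finset.mem_univ i)) h'
  · rw [if_neg h]
    refine Finset.sum_eq_zero fun c _ => ?_
    unfold blk
    refine if_neg fun h' => h ⟨?_, ?_, ?_⟩
    · rw [h'.1, h'.2.1]
    · rw [h'.1, h'.2.2.1]
    · rw [h'.1, h'.2.2.2]

theorem A11_M_skew {N : ℕ} (s t : Fin N → ℕ) (P : ℕ → Fin N → Fin N → ℝ) (lam : ℕ → ℕ → ℝ) (i j k l : Fin N) :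
    A11_M s t P lam i j k l = - A11_M s t P lam i j l k := by
  unfold A11_M
  ring

theorem A11_xr_skew {N : ℕ} {R : Arr N} (hR : IsAlgCurv R) (h : ℝ) (i j k l : Fin N) : xr h R i j k l = - xr h R i j l k := by
  unfold xr idA
  rw [H30K.p1_skew2 hR i j k l]
  ring

theorem A11_mixA {N : ℕ} {R : Arr N} {s t : Fin N → ℕ} {P : ℕ → Fin N → Fin N → ℝ} (hr : Ref s t)
    (hP : ∀ i j k l, t i ≠ t j → s i = s k → s j = s l → R i j k l = (if i = k then P (s i) j l else 0) + (if j = l then P (s j) i k else 0))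
    {h : ℝ} {lam : ℕ → ℕ → ℝ} (hl : ∀ a b, a ≠ b → lam a b + lam b a = -h) (i j k l : Fin N) (hij : t i ≠ t j) (hik : s i = s k) (hjl : s j = s l) :
    xr h R i j k l = A11_M s t P lam i j k l := by
  have htk : t i = t k := hr _ _ hik
  have htl : t j = t l := hr _ _ hjl
  have hil : i ≠ l := fun e => hij (by rw [htl, e])
  have hjk : j ≠ k := fun e => hij (by rw [htk, e])
  have hsij : s i ≠ s j := fun e => hij (hr _ _ e)
  have hlam := hl (s i) (s j) hsij
  have hG1 : A11_G s t P lam i j l = lam (s i) (s j) * (if j = l then 1 else 0) - P (s i) j l := if_pos ⟨hjl, fun e => hij e.symm⟩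
  have hG2 : A11_G s t P lam j i k = lam (s j) (s i) * (if i = k then 1 else 0) - P (s j) i k := if_pos ⟨hik, hij⟩
  unfold xr idA A11_M
  rw [hP i j k l hij hik hjl, hG1, hG2, if_neg hil, if_neg hil, if_neg hjk, if_neg hjk]
  by_cases h1 : i = k
  · by_cases h2 : j = l
    · rw [if_pos h1, if_pos h1, if_pos h1, if_pos h2, if_pos h2, if_pos h2]
      linarith
    · rw [if_pos h1, if_pos h1, if_pos h1, if_neg h2, if_neg h2, if_neg h2]
      ring
  · by_cases h2 : j = l
    · rw [if_neg h1, if_neg h1, if_neg h1, if_pos h2, if_pos h2, if_pos h2]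
      ring
    · rw [if_neg h1, if_neg h1, if_neg h1, if_neg h2, if_neg h2, if_neg h2]
      ring

theorem A11_idA_zero {N : ℕ} {i j k l : Fin N} (h1 : ¬ (i = k ∧ j = l)) (h2 : ¬ (i = l ∧ j = k)) : idA N i j k l = 0 := by
  unfold idA
  have e1 : ((if i = k then 1 else 0) * (if j = l then 1 else 0) : ℝ) = 0 := by
    by_cases h : i = k
    · rw [if_neg (fun e : j = l => h1 ⟨h, e⟩), mul_zero]
    · rw [if_neg h, zero_mul]
  have e2 : ((if i = l then 1 else 0) * (if j = k then 1 else 0) : ℝ) = 0 := by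
    by_cases h : i = l
    · rw [if_neg (fun e : j = k => h2 ⟨h, e⟩), mul_zero]
    · rw [if_neg h, zero_mul]
  rw [e1, e2, sub_zero]

theorem A11_xr_zero {N : ℕ} {R : Arr N} {s : Fin N → ℕ} (hT : ∀ i j k l, R i j k l ≠ 0 → (s i = s k ∧ s j = s l) ∨ (s i = s l ∧ s j = s k)) (h : ℝ) {i j k l : Fin N}
    (h1 : ¬ (s i = s k ∧ s j = s l)) (h2 : ¬ (s i = s l ∧ s j = s k)) : xr h R i j k l = 0 := by
  unfold xr
  have hR0 : R i j k l = 0 := by
    by_contra h0
    rcases hT i j k l h0 with h' | h'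
    · exact h1 h'
    · exact h2 h'
  rw [hR0, A11_idA_zero (fun e => h1 ⟨by rw [e.1], by rw [e.2]⟩) (fun e => h2 ⟨by rw [e.1], by rw [e.2]⟩)]
  ring

theorem A11_mixC {N : ℕ} {s t : Fin N → ℕ} {P : ℕ → Fin N → Fin N → ℝ} {lam : ℕ → ℕ → ℝ} {i j k l : Fin N}
    (h1 : ¬ (s i = s k ∧ s j = s l)) (h2 : ¬ (s i = s l ∧ s j = s k)) : A11_M s t P lam i j k l = 0 := by
  have e1 : (if i = k then A11_G s t P lam i j l else 0) = 0 := by
    by_cases h : i = k
    · rw [if_pos h]
      exact if_neg fun e => h1 ⟨by rw [h], e.1⟩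
    · exact if_neg h
  have e2 : (if j = l then A11_G s t P lam j i k else 0) = 0 := by
    by_cases h : j = l
    · rw [if_pos h]
      exact if_neg fun e => h1 ⟨e.1, by rw [h]⟩
    · exact if_neg h
  have e3 : (if i = l then A11_G s t P lam i j k else 0) = 0 := by
    by_cases h : i = l
    · rw [if_pos h]
      exact if_neg fun e => h2 ⟨by rw [h], e.1⟩
    · exact if_neg h
  have e4 : (if j = k then A11_G s t P lam j i l else 0) = 0 := by
    by_cases h : j = k
    · rw [if_pos h]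
      exact if_neg fun e => h2 ⟨e.1, by rw [h]⟩
    · exact if_neg h
  unfold A11_M
  rw [e1, e2, e3, e4]
  ring

theorem A11_M_same {N : ℕ} {s t : Fin N → ℕ} {P : ℕ → Fin N → Fin N → ℝ} {lam : ℕ → ℕ → ℝ} {i j k l : Fin N} (hij : t i = t j) : A11_M s t P lam i j k l = 0 := by
  have e1 : ∀ x, A11_G s t P lam i j x = 0 := fun x => if_neg fun e => e.2 hij.symm
  have e2 : ∀ x, A11_G s t P lam j i x = 0 := fun x => if_neg fun e => e.2 hij
  unfold A11_M
  rw [e1, e1, e2, e2, ite_self, ite_self, ite_self, ite_self]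
  ring

theorem A11_dec {N : ℕ} {R : Arr N} (hR : IsAlgCurv R) {s t : Fin N → ℕ} {P : ℕ → Fin N → Fin N → ℝ} (hr : Ref s t)
    (hT : ∀ i j k l, R i j k l ≠ 0 → (s i = s k ∧ s j = s l) ∨ (s i = s l ∧ s j = s k))
    (hP : ∀ i j k l, t i ≠ t j → s i = s k → s j = s l → R i j k l = (if i = k then P (s i) j l else 0) + (if j = l then P (s j) i k else 0))
    {h : ℝ} {lam : ℕ → ℕ → ℝ} (hl : ∀ a b, a ≠ b → lam a b + lam b a = -h) :
    xr h R = ∑ c ∈ (Finset.univ : Finset (Fin N)).image t, blk t c (xr h R) +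
      ∑ a, ∑ b ∈ (Finset.univ : Finset (Fin N)).image s, kna a (A11_Q s t P lam a b) := by
  classical
  funext i j k l
  have e : (∑ c ∈ (Finset.univ : Finset (Fin N)).image t, blk t c (xr h R) +
      ∑ a, ∑ b ∈ (Finset.univ : Finset (Fin N)).image s, kna a (A11_Q s t P lam a b)) i j k l =
      (∑ c ∈ (Finset.univ : Finset (Fin N)).image t, blk t c (xr h R) i j k l) + ∑ a, ∑ b ∈ (Finset.univ : Finset (Fin N)).image s, kna a (A11_Q s t P lam a b) i j k l := by
    simp only [Pi.add_apply, Finset.sum_apply]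
  rw [e, A11_blk, A11_kna]
  by_cases hij : t i = t j
  · rw [A11_M_same hij, add_zero]
    by_cases hall : t i = t j ∧ t i = t k ∧ t i = t l
    · rw [if_pos hall]
    · rw [if_neg hall]
      refine A11_xr_zero hT h ?_ ?_
      · rintro ⟨h1, h2⟩
        exact hall ⟨hij, hr _ _ h1, hij.trans (hr _ _ h2)⟩
      · rintro ⟨h1, h2⟩
        exact hall ⟨hij, hij.trans (hr _ _ h2), hr _ _ h1⟩
  · rw [if_neg fun h' => hij h'.1, zero_add]
    by_cases hA : s i = s k ∧ s j = s l
    · exact A11_mixA hr hP hl i j k l hij hA.1 hA.2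
    · by_cases hB : s i = s l ∧ s j = s k
      · rw [A11_xr_skew hR, A11_M_skew, A11_mixA hr hP hl i j l k hij hB.1 hB.2]
      · rw [A11_mixC hA hB, A11_xr_zero hT h hA hB]

theorem A11_Q_symm {N : ℕ} {R : Arr N} (hR : IsAlgCurv R) {s t : Fin N → ℕ} {P : ℕ → Fin N → Fin N → ℝ} (hr : Ref s t)
    (hP : ∀ i j k l, t i ≠ t j → s i = s k → s j = s l → R i j k l = (if i = k then P (s i) j l else 0) + (if j = l then P (s j) i k else 0))
    (lam : ℕ → ℕ → ℝ) (a : Fin N) (b : ℕ) (j l : Fin N) : A11_Q s t P lam a b j l = A11_Q s t P lam a b l j := by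
  unfold A11_Q
  by_cases h : s j = b ∧ s l = b ∧ t j ≠ t a
  · have hjl : s j = s l := h.1.trans h.2.1.symm
    have htj : t j = t l := hr _ _ hjl
    have h' : s l = b ∧ s j = b ∧ t l ≠ t a := ⟨h.2.1, h.1, fun e => h.2.2 (htj.trans e)⟩
    rw [if_pos h, if_pos h']
    by_cases e : j = l
    · rw [e]
    · rw [if_neg e, if_neg (Ne.symm e)]
      have h1 := hP a j a l (fun e => h.2.2 e.symm) rfl hjl
      have h2 := hP a l a j (fun e => h'.2.2 e.symm) rfl hjl.symm
      rw [if_pos rfl, if_neg e] at h1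
      rw [if_pos rfl, if_neg (Ne.symm e)] at h2
      have h3 := hR.pair a j a l
      linarith
  · have h' : ¬ (s l = b ∧ s j = b ∧ t l ≠ t a) := by
      rintro ⟨h1, h2, h3⟩
      exact h ⟨h2, h1, fun e => h3 ((hr _ _ (h1.trans h2.symm)).trans e)⟩
    rw [if_neg h, if_neg h']

theorem A11_Q_supp {N : ℕ} {s t : Fin N → ℕ} {P : ℕ → Fin N → Fin N → ℝ} (lam : ℕ → ℕ → ℝ) (a : Fin N) (b : ℕ) (j l : Fin N) (h : A11_Q s t P lam a b j l ≠ 0) :
    s j = b ∧ s l = b := by
  by_contra h'
  exact h (if_neg fun e => h' ⟨e.1, e.2.1⟩)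

theorem A11_Q_psd {N : ℕ} {s t : Fin N → ℕ} {P : ℕ → Fin N → Fin N → ℝ} (hr : Ref s t) {lam : ℕ → ℕ → ℝ}
    (hl : ∀ i0 j0, t i0 ≠ t j0 → ∀ y : Fin N → ℝ, (∀ j, y j ≠ 0 → s j = s j0) → pf P (s i0) y ≤ lam (s i0) (s j0) * dot y y) (a : Fin N) (b : ℕ) (x : Fin N → ℝ) :
    0 ≤ ∑ i, ∑ j, A11_Q s t P lam a b i j * (x i * x j) := by
  classical
  by_cases hex : ∃ j0, s j0 = b ∧ t j0 ≠ t a
  · obtain ⟨j0, hj0, hta⟩ := hex
    have ht : ∀ j, s j = b → t j ≠ t a := fun j hj e => hta ((hr _ _ (hj0.trans hj.symm)).trans e)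
    have h1 := hl a j0 (fun e => hta e.symm) (fun j => if s j = b then x j else 0) (by
      intro j hj
      by_contra h
      exact hj (if_neg fun e => h (e.trans hj0.symm)))
    have h2 : ∑ i, ∑ j, A11_Q s t P lam a b i j * (x i * x j) =
        lam (s a) (s j0) * dot (fun j => if s j = b then x j else 0) (fun j => if s j = b then x j else 0) - pf P (s a) (fun j => if s j = b then x j else 0) := by
      unfold dot pf
      rw [Finset.mul_sum, ← Finset.sum_sub_distrib]
      refine Finset.sum_congr rfl fun i _ => ?_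
      have h3 : lam (s a) (s j0) * ((if s i = b then x i else 0) * (if s i = b then x i else 0)) =
          ∑ j, if i = j then lam (s a) (s j0) * ((if s i = b then x i else 0) * (if s i = b then x i else 0)) else 0 := by
        rw [Finset.sum_ite_eq]
        rw [if_pos (Finset.mem_univ i)]
      rw [h3, ← Finset.sum_sub_distrib]
      refine Finset.sum_congr rfl fun j _ => ?_
      show A11_Q s t P lam a b i j * (x i * x j) =
        (if i = j then lam (s a) (s j0) * ((if s i = b then x i else 0) * (if s i = b then x i else 0)) else 0) -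
          P (s a) i j * ((if s i = b then x i else 0) * (if s j = b then x j else 0))
      unfold A11_Q
      by_cases hi : s i = b
      · by_cases hj : s j = b
        · rw [if_pos ⟨hi, hj, ht i hi⟩, if_pos hi, if_pos hj, hj0]
          by_cases e : i = j
          · subst e
            rw [if_pos rfl, if_pos rfl]
            ring
          · rw [if_neg e, if_neg e]
            ring
        · rw [if_neg fun h => hj h.2.1, if_neg hj]
          have e : i ≠ j := fun e => hj (by rw [← e]; exact hi)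
          rw [if_neg e]
          ring
      · rw [if_neg fun h => hi h.1, if_neg hi, zero_mul, mul_zero, zero_mul, mul_zero, mul_zero, ite_self, sub_zero]
    rw [h2]
    exact sub_nonneg.2 h1
  · have h0 : ∀ i j, A11_Q s t P lam a b i j = 0 := fun i j => if_neg fun e => hex ⟨i, e.1, e.2.2⟩
    refine le_of_eq (Finset.sum_eq_zero fun i _ => Finset.sum_eq_zero fun j _ => ?_).symm
    rw [h0, zero_mul]

theorem A11 {N : ℕ} {R : Arr N} (hR : IsAlgCurv R) {s t : Fin N → ℕ} {P : ℕ → Fin N → Fin N → ℝ} (hr : Ref s t)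
    (hT : ∀ i j k l, R i j k l ≠ 0 → (s i = s k ∧ s j = s l) ∨ (s i = s l ∧ s j = s k))
    (hP : ∀ i j k l, t i ≠ t j → s i = s k → s j = s l → R i j k l = (if i = k then P (s i) j l else 0) + (if j = l then P (s j) i k else 0))
    {h : ℝ} (hK : KB h R) : xr h R ∈ AddSubmonoid.closure (GenS s (fun a => blk t a (xr h R))) := by
  classical
  obtain ⟨lam, hl1, hl2⟩ := A10 hr hP hK
  have hd := A11_dec hR hr hT hP hl1
  have h1 : ∑ c ∈ (Finset.univ : Finset (Fin N)).image t, blk t c (xr h R) ∈ AddSubmonoid.closure (GenS s (fun a => blk t a (xr h R))) :=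
    sum_mem fun c _ => AddSubmonoid.subset_closure (Or.inl ⟨c, rfl⟩)
  have h2 : ∑ a, ∑ b ∈ (Finset.univ : Finset (Fin N)).image s, kna a (A11_Q s t P lam a b) ∈ AddSubmonoid.closure (GenS s (fun a => blk t a (xr h R))) :=
    sum_mem fun a _ => sum_mem fun b _ => A9 _ a (A11_Q_symm hR hr hP lam a b) (A11_Q_supp lam a b) (A11_Q_psd hr hl2 a b)
  exact (congrArg (fun Z => Z ∈ AddSubmonoid.closure (GenS s (fun a => blk t a (xr h R)))) hd).mpr (add_mem h1 h2)

end H56E
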