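import Pool.Agent.Lib.H56E.Defs
import Pool.Agent.Lib.H56C.L4

/-!
# A12A (M): type and cyclic condition; representatives

`A12_cyc`: `Cyc (fun i => (s i : ℝ)) R` (`hT`, Bianchi).
`A12_inj`: an orthonormal family `v` has an injective `f` with `v k (f k) ≠ 0`: Hall's theorem (`Finset.all_card_le_biUnion_card_iff_exists_injective` for `T k = {i | v k i ≠ 0}`): the vectors `v k`, `k ∈ K`, are linearly independent and vanish outside `⋃ T k`, so `#K ≤ #⋃ T k`.
-/

set_option autoImplicit false

open Finset

namespace H56E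

open Pool.Agent.H69Hopf
open H30K (KB Cyc)

theorem a12a_real {X Y Z a b c d : ℝ} (hb : X + Y + Z = 0) (h1 : X ≠ 0 → (a = c ∧ b = d) ∨ (a = d ∧ b = c))
    (h2 : Y ≠ 0 → (b = a ∧ c = d) ∨ (b = d ∧ c = a)) (h3 : Z ≠ 0 → (c = b ∧ a = d) ∨ (c = d ∧ a = b)) :
    X * c + Y * a + Z * b = 0 := by
  by_cases hX : X = 0
  · by_cases hY : Y = 0
    · have hZ : Z = 0 := by linarith
      rw [hX, hY, hZ]
      ring
    · have hZ : Z ≠ 0 := fun h => hY (by linarith)
      have hab : a = b := by
        rcases h2 hY with ⟨p, q⟩ | ⟨p, q⟩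
        · exact p.symm
        · rcases h3 hZ with ⟨r, t⟩ | ⟨r, t⟩
          · linarith
          · exact t
      linear_combination a * hb - Z * hab + (c - a) * hX
  · have hYa : Y * a = Y * c := by
      by_cases hY : Y = 0
      · rw [hY]
        ring
      · rcases h1 hX with ⟨p, q⟩ | ⟨p, q⟩
        · rw [p]
        · rcases h2 hY with ⟨r, t⟩ | ⟨r, t⟩
          · rw [← r, q]
          · rw [t]
    have hZb : Z * b = Z * c := by
      by_cases hZ : Z = 0
      · rw [hZ]
        ring
      · rcases h1 hX with ⟨p, q⟩ | ⟨p, q⟩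
        · rcases h3 hZ with ⟨r, t⟩ | ⟨r, t⟩
          · rw [r]
          · rw [q, r]
        · rw [q]
    linear_combination c * hb + hYa + hZb

theorem A12_cyc {N : ℕ} {R : Arr N} (hR : IsAlgCurv R) {s : Fin N → ℕ} (hT : ∀ i j k l, R i j k l ≠ 0 → (s i = s k ∧ s j = s l) ∨ (s i = s l ∧ s j = s k)) :
    Cyc (fun i => (s i : ℝ)) R := by
  intro i j k l
  refine a12a_real (d := (s l : ℝ)) (hR.bianchi i j k l) (fun h => ?_) (fun h => ?_) (fun h => ?_)
  · have h' := hT i j k l h
    simp only [Nat.cast_inj]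
    exact h'
  · have h' := hT j k i l h
    simp only [Nat.cast_inj]
    exact h'
  · have h' := hT k i j l h
    simp only [Nat.cast_inj]
    exact h'

theorem a12a_hall {M N : ℕ} {v : Fin M → (Fin N → ℝ)} (hv : ONF v) (K : Finset (Fin M)) :
    K.card ≤ (K.biUnion fun k => Finset.univ.filter fun i => v k i ≠ 0).card := by
  classical
  set U : Finset (Fin N) := K.biUnion fun k => Finset.univ.filter fun i => v k i ≠ 0 with hU
  let w : K → (U → ℝ) := fun k i => v k i
  have hli : LinearIndependent ℝ w := by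
    rw [Fintype.linearIndependent_iff]
    intro g hg k
    have h0 : ∀ i, ∑ k' : K, g k' * v k' i = 0 := by
      intro i
      by_cases hi : i ∈ U
      · have h := congrFun hg ⟨i, hi⟩
        simpa [w, Finset.sum_apply] using h
      · refine Finset.sum_eq_zero fun k' _ => ?_
        have h : v k' i = 0 := by
          by_contra h
          exact hi (Finset.mem_biUnion.2 ⟨k', k'.2, by simp [h]⟩)
        rw [h, mul_zero]
    have h1 : ∑ i, (∑ k' : K, g k' * v k' i) * v k i = 0 := by
      refine Finset.sum_eq_zero fun i _ => ?_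
      rw [h0, zero_mul]
    have h2 : ∑ i, (∑ k' : K, g k' * v k' i) * v k i = ∑ k' : K, g k' * dot (v k') (v k) := by
      unfold dot
      simp_rw [Finset.sum_mul, Finset.mul_sum]
      rw [Finset.sum_comm]
      refine Finset.sum_congr rfl fun k' _ => Finset.sum_congr rfl fun i _ => ?_
      ring
    rw [h2, Finset.sum_eq_single k] at h1
    · rw [hv, if_pos rfl, mul_one] at h1
      exact h1
    · intro b _ hb
      rw [hv, if_neg (fun h => hb (Subtype.ext h)), mul_zero]
    · intro h
      exact absurd (Finset.mem_univ k) h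
  have h := hli.fintype_card_le_finrank
  simpa using h

theorem A12_inj {M N : ℕ} {v : Fin M → (Fin N → ℝ)} (hv : ONF v) : ∃ f : Fin M → Fin N, Function.Injective f ∧ ∀ k, v k (f k) ≠ 0 := by
  classical
  obtain ⟨f, hf, hf2⟩ := (Finset.all_card_le_biUnion_card_iff_exists_injective
    (fun k => Finset.univ.filter fun i => v k i ≠ 0)).1 (fun K => a12a_hall hv K)
  exact ⟨f, hf, fun k => by simpa using hf2 k⟩

end H56E
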