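import Pool.Agent.Lib.H56E.A4
import Pool.Agent.Lib.H56C.K3

/-!
# A5 (M): arrays supported in clusters

`A5_card`: if `mgb T ≠ 0` there is a `σ` with all factors `≠ 0`, so `t (σ (fst i)) = t (σ (snd i)) = a i`; counting (`σ` a bijection, `H56C.k3_sum` for the function `x ↦ if t (σ x) = b then 1 else 0`).
`A5_perm`: invariance under a permutation of the coordinates (as `H56C.K3_perm`: sum over `σ ↦ π⁻¹ σ`, the two signs cancel).
`A5`: `b = a 0`. If `mgb T ≠ 0`: `r = #{i | a i = b} ≥ 1`, `#{x | t x = b} = 2 r`, `n = r + q`. A permutation `π` of `Fin n` with `a (π i) = b ↔ i < r` and a permutation `ρ` of `Fin (2 n)` with `t (ρ x) = b ↔ x < 2 r`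
(`Equiv.extendSubtype`, as in `H21C.case_33'`, `Lib/H21C/T33B.lean`), `mgb T = mgb (fun i => rs ρ (T (π i)))` (`mgb_perm`, `A5_perm`), `A4`. `I i = π (castAdd q i)`, `J j = π (natAdd r j)`, `l = ρ ∘ lo`, `m = ρ ∘ hi`, `rs lo (rs ρ T) = rs (ρ ∘ lo) T`.
-/

set_option autoImplicit false

open Finset

namespace H56E

open Pool.Agent.H69Hopf

theorem A5_card {n : ℕ} {t : Fin (2 * n) → ℕ} {T : Fin n → Arr (2 * n)} {a : Fin n → ℕ} (hT : ∀ i, InC t (a i) (T i)) (h0 : mgb T ≠ 0) (b : ℕ) :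
    (univ.filter fun x => t x = b).card = 2 * (univ.filter fun i => a i = b).card := by
  unfold mgb at h0
  obtain ⟨σ, -, h1⟩ := Finset.exists_ne_zero_of_sum_ne_zero h0
  obtain ⟨τ, -, h2⟩ := Finset.exists_ne_zero_of_sum_ne_zero h1
  have hp : ∏ i : Fin n, T i (σ (fst i)) (σ (snd i)) (τ (fst i)) (τ (snd i)) ≠ 0 := right_ne_zero_of_mul h2
  have hs : ∀ i : Fin n, t (σ (fst i)) = a i ∧ t (σ (snd i)) = a i := fun i => by
    have := hT i _ _ _ _ (Finset.prod_ne_zero_iff.1 hp i (Finset.mem_univ _))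
    exact ⟨this.1, this.2.1⟩
  have e1 : (univ.filter fun x => t x = b).card = ∑ x : Fin (2 * n), if t (σ x) = b then 1 else 0 := by
    rw [Finset.card_filter]
    exact (Equiv.sum_comp σ (fun x => if t x = b then 1 else 0)).symm
  rw [e1, H56C.k3_sum, Finset.card_filter, Finset.mul_sum]
  refine Finset.sum_congr rfl fun i _ => ?_
  rw [(hs i).1, (hs i).2, two_mul]

theorem A5_perm {n : ℕ} (T : Fin n → Arr (2 * n)) (π : Equiv.Perm (Fin (2 * n))) : mgb (fun i => rs π (T i)) = mgb T := by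
  unfold mgb
  rw [← Equiv.sum_comp (Equiv.mulLeft π) (fun σ : Equiv.Perm (Fin (2 * n)) => ∑ τ : Equiv.Perm (Fin (2 * n)),
    ((Equiv.Perm.sign σ : ℤ) : ℝ) * ((Equiv.Perm.sign τ : ℤ) : ℝ) *
      ∏ i : Fin n, T i (σ (fst i)) (σ (snd i)) (τ (fst i)) (τ (snd i)))]
  refine Finset.sum_congr rfl fun σ _ => ?_
  rw [← Equiv.sum_comp (Equiv.mulLeft π) (fun τ : Equiv.Perm (Fin (2 * n)) =>
    ((Equiv.Perm.sign ((Equiv.mulLeft π) σ) : ℤ) : ℝ) * ((Equiv.Perm.sign τ : ℤ) : ℝ) *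
      ∏ i : Fin n, T i (((Equiv.mulLeft π) σ) (fst i)) (((Equiv.mulLeft π) σ) (snd i)) (τ (fst i)) (τ (snd i)))]
  refine Finset.sum_congr rfl fun τ _ => ?_
  have e1 : ((Equiv.mulLeft π) σ : Equiv.Perm (Fin (2 * n))) = π * σ := rfl
  have e2 : ((Equiv.mulLeft π) τ : Equiv.Perm (Fin (2 * n))) = π * τ := rfl
  rw [e1, e2, Equiv.Perm.sign_mul, Equiv.Perm.sign_mul]
  have e3 : ((Equiv.Perm.sign π : ℤ) : ℝ) * ((Equiv.Perm.sign π : ℤ) : ℝ) = 1 := by
    rcases Int.units_eq_one_or (Equiv.Perm.sign π) with h | h <;> simp [h]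
  push_cast
  have e4 : ((Equiv.Perm.sign π : ℤ) : ℝ) * ((Equiv.Perm.sign σ : ℤ) : ℝ) * (((Equiv.Perm.sign π : ℤ) : ℝ) * ((Equiv.Perm.sign τ : ℤ) : ℝ)) =
      ((Equiv.Perm.sign σ : ℤ) : ℝ) * ((Equiv.Perm.sign τ : ℤ) : ℝ) := by
    linear_combination ((Equiv.Perm.sign σ : ℤ) : ℝ) * ((Equiv.Perm.sign τ : ℤ) : ℝ) * e3
  rw [e4]
  rfl

/-- a permutation mapping the first `r` indices onto the indices with `p` -/
theorem A5_ext {N r : ℕ} (hr : r ≤ N) (p : Fin N → Prop) [DecidablePred p] (hc : (univ.filter fun x => p x).card = r) :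
    ∃ e : Equiv.Perm (Fin N), ∀ i : Fin N, p (e i) ↔ i.1 < r := by
  have c1 : Fintype.card {i : Fin N // i.1 < r} = r := by
    rw [Fintype.card_subtype, Fin.card_filter_val_lt]
    exact min_eq_right hr
  have c2 : Fintype.card {i : Fin N // p i} = r := by
    rw [Fintype.card_subtype, hc]
  let e0 : {i : Fin N // i.1 < r} ≃ {i : Fin N // p i} := Fintype.equivOfCardEq (c1.trans c2.symm)
  refine ⟨e0.extendSubtype, fun i => ⟨fun h => ?_, fun h => e0.extendSubtype_mem i h⟩⟩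
  by_contra hi
  exact e0.extendSubtype_not_mem i hi h

theorem A5 {n : ℕ} (hn : 0 < n) {t : Fin (2 * n) → ℕ} {T : Fin n → Arr (2 * n)} {a : Fin n → ℕ} (hT : ∀ i, InC t (a i) (T i)) :
    mgb T = 0 ∨ ∃ (r q : ℕ) (l : Fin (2 * r) → Fin (2 * n)) (m : Fin (2 * q) → Fin (2 * n)) (I : Fin r → Fin n) (J : Fin q → Fin n), q < n ∧ Function.Injective l ∧ Function.Injective m ∧
      (∀ k, t (l k) = a ⟨0, hn⟩) ∧ (∀ i, a (I i) = a ⟨0, hn⟩) ∧ mgb T = mgb (fun i => rs l (T (I i))) * mgb (fun j => rs m (T (J j))) := by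
  by_cases h0 : mgb T = 0
  · exact Or.inl h0
  right
  obtain ⟨b, hb⟩ : ∃ b, b = a ⟨0, hn⟩ := ⟨_, rfl⟩
  rw [← hb]
  obtain ⟨r, hr⟩ : ∃ r, (univ.filter fun i => a i = b).card = r := ⟨_, rfl⟩
  have hr1 : 1 ≤ r := by
    rw [← hr]
    exact Finset.card_pos.2 ⟨⟨0, hn⟩, Finset.mem_filter.2 ⟨Finset.mem_univ _, hb.symm⟩⟩
  have hrn : r ≤ n := by
    rw [← hr]
    exact (Finset.card_filter_le _ _).trans (by simp)
  have hR : (univ.filter fun x => t x = b).card = 2 * r := by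
    rw [A5_card hT h0 b, hr]
  obtain ⟨π, hπ⟩ := A5_ext hrn (fun i => a i = b) hr
  obtain ⟨ρ, hρ⟩ := A5_ext (Nat.mul_le_mul_left 2 hrn) (fun x => t x = b) hR
  obtain ⟨q, rfl⟩ := Nat.exists_eq_add_of_le hrn
  have e1 : mgb T = mgb (fun i => rs ρ (T (π i))) := by
    rw [A5_perm (fun i => T (π i)) ρ, mgb_perm]
  have e2 := A4 (fun i => rs ρ (T (π i))) (fun i x y z w h => by
      have h3 := hT (π (Fin.castAdd q i)) _ _ _ _ h
      have h4 : a (π (Fin.castAdd q i)) = b := (hπ _).2 (by simp)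
      rw [h4] at h3
      exact ⟨(hρ _).1 h3.1, (hρ _).1 h3.2.1, (hρ _).1 h3.2.2.1, (hρ _).1 h3.2.2.2⟩)
    (fun j x y z w h => by
      have h3 := hT (π (Fin.natAdd r j)) _ _ _ _ h
      have h4 : a (π (Fin.natAdd r j)) ≠ b := fun h5 => by
        have := (hπ _).1 h5
        simp at this
      refine ⟨?_, ?_, ?_, ?_⟩
      · by_contra h6
        exact h4 (h3.1.symm.trans ((hρ _).2 (by omega)))
      · by_contra h6
        exact h4 (h3.2.1.symm.trans ((hρ _).2 (by omega)))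
      · by_contra h6
        exact h4 (h3.2.2.1.symm.trans ((hρ _).2 (by omega)))
      · by_contra h6
        exact h4 (h3.2.2.2.symm.trans ((hρ _).2 (by omega))))
  refine ⟨r, q, fun k => ρ (lo r q k), fun k => ρ (hi r q k), fun i => π (Fin.castAdd q i), fun j => π (Fin.natAdd r j), by omega, ?_, ?_, ?_, ?_, ?_⟩
  · intro x y h
    have h5 := congrArg Fin.val (ρ.injective h)
    exact Fin.ext h5
  · intro x y h
    have h5 := congrArg Fin.val (ρ.injective h)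
    have h6 : 2 * r + x.1 = 2 * r + y.1 := h5
    exact Fin.ext (by omega)
  · intro k
    exact (hρ _).2 k.2
  · intro i
    exact (hπ _).2 (by simp)
  · exact e1.trans e2

end H56E
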