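import Pool.Agent.Lib.H56E.A3
import Pool.Agent.Lib.H56E.A5

/-!
# A6 (M): the mixed form of admissible arrays is nonnegative

Strong induction on `n`. `n = 0`: `mgb T = 1` (`unfold mgb; simp`). `n = m + 1`: if some `T i0 = sqf u v` (classes): `A3`, `A2_pos`, `A2_gen`, induction hypothesis for `m`. Otherwise `T i = B (a i)` for all `i`: `A5`: `T (I i) = B (a 0)`, so the first factor
is `gaussBonnet r (rs l (B (a 0)))`, `A2_rs`, `hB.pos` with `v k = ei (l k)`; the second factor: `A2_rs`, `A2_pos`, `A2_gen`, induction hypothesis for `q`.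
-/

set_option autoImplicit false

open Finset

namespace H56E

open Pool.Agent.H69Hopf

theorem A6 (n : ℕ) : ∀ (s t : Fin (2 * n) → ℕ) (B : ℕ → Arr (2 * n)), Ref s t → Pos s t B → ∀ T : Fin n → Arr (2 * n), (∀ i, T i ∈ GenS s B) → 0 ≤ mgb T := by
  induction n using Nat.strong_induction_on with
  | _ n ih =>
  intro s t B hr hB T hT
  by_cases hx : ∃ i0 u v, Cls s u ∧ Cls s v ∧ T i0 = sqf u v
  · obtain ⟨i0, u, v, hu, hv, hi⟩ := hx
    obtain ⟨m, rfl⟩ : ∃ m, n = m + 1 := ⟨n - 1, by have := i0.2; omega⟩
    rcases A3 T i0 hu hv hi with h | ⟨c, g, f, I, hc, hg, -, hgf, he⟩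
    · rw [h]
    · rw [he]
      exact mul_nonneg hc (ih m (by omega) (fun k => s (f k)) (fun k => t (f k)) (fun a => pull g (B a)) (fun i j h => hr _ _ h) (A2_pos hr hB hg hgf)
        (fun i => pull g (T (I i))) fun i => A2_gen hgf (hT (I i)))
  · have hb : ∀ i, ∃ a, T i = B a := fun i => by
      rcases hT i with h | ⟨u, v, hu, hv, h⟩
      · exact h
      · exact absurd ⟨i, u, v, hu, hv, h⟩ hx
    choose a ha using hb
    rcases Nat.eq_zero_or_pos n with h0 | hn
    · subst h0
      unfold mgb
      simp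
    · rcases A5 hn (t := t) (T := T) (a := a) (fun i => by rw [ha i]; exact hB.sup _) with h | ⟨r, q, l, m, I, J, hq, hl, hm, hl', hI, he⟩
      · rw [h]
      · rw [he]
        refine mul_nonneg ?_ ?_
        · have e1 : (fun i => rs l (T (I i))) = fun _ => pull (fun k => ei (l k)) (B (a ⟨0, hn⟩)) := by
            funext i
            rw [A2_rs, ha, hI]
          rw [e1, ← gaussBonnet_eq_mgb]
          refine hB.pos _ _ _ (A2_ei (s := s) hl).1 ?_ ?_
          · intro k i j hi hj
            rw [(A2_ei (s := s) hl).2 k i hi, (A2_ei (s := s) hl).2 k j hj]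
          · intro k i hi
            rw [hr _ _ ((A2_ei (s := s) hl).2 k i hi)]
            exact hl' k
        · have e2 : (fun j => rs m (T (J j))) = fun j => pull (fun k => ei (m k)) (T (J j)) := by
            funext j
            rw [A2_rs]
          rw [e2]
          exact ih q hq (fun k => s (m k)) (fun k => t (m k)) (fun a => pull (fun k => ei (m k)) (B a)) (fun i j h => hr _ _ h)
            (A2_pos hr hB (A2_ei (s := s) hm).1 (A2_ei (s := s) hm).2) _ fun j => A2_gen (A2_ei (s := s) hm).2 (hT (J j))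

end H56E
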