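import Pool.Agent.Lib.H56E.Defs

/-!
# A7 (S/M): multilinearity

`A7_add`, `A7_zero`: `mgb` is additive in each entry (the product over `i` contains the entry `i0` exactly once: `Finset.mul_prod_erase`).
`A7_closure`: for `k ≤ n`: if `T i ∈ closure S` for `i < k` and `T i ∈ S` for `k ≤ i` then `0 ≤ mgb T`; step: `AddSubmonoid.closure_induction` in the entry `k` (`Function.update T k x`).
`A7_mono`: `F k = mgb (fun i => if i < k then X + Y else Y)` is monotone in `k`: `F (k + 1) - F k = mgb (update .. k X) ≥ 0` by `A7_closure` (`X + Y`, `X`, `Y` in the closure).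
-/

set_option autoImplicit false

open Finset

namespace H56E

open Pool.Agent.H69Hopf

theorem A7_prod {n : ℕ} (T : Fin n → Arr (2 * n)) (i : Fin n) (Z : Arr (2 * n)) (σ τ : Equiv.Perm (Fin (2 * n))) :
    ∏ k, Function.update T i Z k (σ (fst k)) (σ (snd k)) (τ (fst k)) (τ (snd k)) =
      Z (σ (fst i)) (σ (snd i)) (τ (fst i)) (τ (snd i)) * ∏ k ∈ Finset.univ.erase i, T k (σ (fst k)) (σ (snd k)) (τ (fst k)) (τ (snd k)) := by
  rw [← Finset.mul_prod_erase Finset.univ _ (Finset.mem_univ i), Function.update_self]
  congr 1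
  refine Finset.prod_congr rfl fun k hk => ?_
  rw [Function.update_of_ne (Finset.ne_of_mem_erase hk)]

theorem A7_add {n : ℕ} (T : Fin n → Arr (2 * n)) (i : Fin n) (X Y : Arr (2 * n)) :
    mgb (Function.update T i (X + Y)) = mgb (Function.update T i X) + mgb (Function.update T i Y) := by
  unfold mgb
  rw [← Finset.sum_add_distrib]
  refine Finset.sum_congr rfl fun σ _ => ?_
  rw [← Finset.sum_add_distrib]
  refine Finset.sum_congr rfl fun τ _ => ?_
  rw [A7_prod, A7_prod, A7_prod]
  simp only [Pi.add_apply]
  ring

theorem A7_zero {n : ℕ} (T : Fin n → Arr (2 * n)) (i : Fin n) : mgb (Function.update T i 0) = 0 := by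
  have h := A7_add T i 0 0
  rw [add_zero] at h
  linarith

theorem A7_aux {n : ℕ} {S : Set (Arr (2 * n))} (hS : ∀ T : Fin n → Arr (2 * n), (∀ i, T i ∈ S) → 0 ≤ mgb T) :
    ∀ k : ℕ, k ≤ n → ∀ T : Fin n → Arr (2 * n), (∀ i : Fin n, i.1 < k → T i ∈ AddSubmonoid.closure S) → (∀ i : Fin n, k ≤ i.1 → T i ∈ S) → 0 ≤ mgb T := by
  intro k
  induction k with
  | zero => exact fun _ T _ h2 => hS T fun i => h2 i (Nat.zero_le _)
  | succ k ih =>
    intro hk T h1 h2
    have key : ∀ x, x ∈ AddSubmonoid.closure S → 0 ≤ mgb (Function.update T (⟨k, hk⟩ : Fin n) x) := by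
      intro x hx
      induction hx using AddSubmonoid.closure_induction with
      | mem x hx =>
        refine ih (by omega) _ (fun i hi => ?_) fun i hi => ?_
        · rw [Function.update_of_ne (fun h => by rw [h] at hi; exact absurd hi (lt_irrefl _))]
          exact h1 i (by omega)
        · by_cases h : i = ⟨k, hk⟩
          · rw [h, Function.update_self]; exact hx
          · rw [Function.update_of_ne h]
            refine h2 i ?_
            rcases Nat.lt_or_ge k i.1 with h3 | h3
            · omega
            · exact absurd (Fin.ext (le_antisymm h3 hi)) h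
      | zero => rw [A7_zero]
      | add x y _ _ hx hy => rw [A7_add]; exact add_nonneg hx hy
    have h3 := key (T ⟨k, hk⟩) (h1 _ (Nat.lt_succ_self k))
    rwa [Function.update_eq_self] at h3

theorem A7_closure {n : ℕ} {S : Set (Arr (2 * n))} (hS : ∀ T : Fin n → Arr (2 * n), (∀ i, T i ∈ S) → 0 ≤ mgb T) {T : Fin n → Arr (2 * n)} (hT : ∀ i, T i ∈ AddSubmonoid.closure S) : 0 ≤ mgb T :=
  A7_aux hS n le_rfl T (fun i _ => hT i) fun i hi => absurd i.2 (by omega)

theorem A7_mono {n : ℕ} {S : Set (Arr (2 * n))} (hS : ∀ T : Fin n → Arr (2 * n), (∀ i, T i ∈ S) → 0 ≤ mgb T) {X Y : Arr (2 * n)} (hX : X ∈ AddSubmonoid.closure S) (hY : Y ∈ AddSubmonoid.closure S) :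
    mgb (fun _ : Fin n => Y) ≤ mgb (fun _ : Fin n => X + Y) := by
  have step : ∀ k : ℕ, k ≤ n → mgb (fun _ : Fin n => Y) ≤ mgb (fun i : Fin n => if i.1 < k then X + Y else Y) := by
    intro k
    induction k with
    | zero => intro _; simp
    | succ k ih =>
      intro hk
      refine (ih (by omega)).trans ?_
      have e1 : (fun i : Fin n => if i.1 < k + 1 then X + Y else Y) =
          Function.update (fun i : Fin n => if i.1 < k then X + Y else Y) ⟨k, hk⟩ (X + Y) := by
        funext i
        by_cases h : i = ⟨k, hk⟩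
        · rw [h, Function.update_self, if_pos (Nat.lt_succ_self k)]
        · rw [Function.update_of_ne h]
          have h3 : i.1 ≠ k := fun h4 => h (Fin.ext h4)
          by_cases h5 : i.1 < k
          · rw [if_pos h5, if_pos (by omega)]
          · rw [if_neg h5, if_neg (by omega)]
      have e2 : (fun i : Fin n => if i.1 < k then X + Y else Y) =
          Function.update (fun i : Fin n => if i.1 < k then X + Y else Y) ⟨k, hk⟩ Y := by
        funext i
        by_cases h : i = ⟨k, hk⟩
        · rw [h, Function.update_self, if_neg (lt_irrefl _)]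
        · rw [Function.update_of_ne h]
      rw [e1, A7_add, ← e2]
      have h6 : 0 ≤ mgb (Function.update (fun i : Fin n => if i.1 < k then X + Y else Y) ⟨k, hk⟩ X) := by
        refine A7_closure hS fun i => ?_
        by_cases h : i = ⟨k, hk⟩
        · rw [h, Function.update_self]; exact hX
        · rw [Function.update_of_ne h]
          split_ifs
          · exact AddSubmonoid.add_mem _ hX hY
          · exact hY
      linarith
  have h := step n le_rfl
  have e : (fun i : Fin n => if i.1 < n then X + Y else Y) = fun _ : Fin n => X + Y := by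
    funext i
    rw [if_pos i.2]
  rwa [e] at h

end H56E
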