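import Pool.Agent.Lib.H56E.Defs
import Pool.Agent.Lib.H69.Hopf.Sym

/-!
# A8 (M): constant curvature

`A8_mem`: `h • idA = ∑ a, ∑ b, sqf (ei a) (√(h / 2) • ei b)` (`idA` as in `Lib/H69/Hopf/Sym.lean`; `∑ a b, (δ_ia δ_jb - δ_ja δ_ib) (δ_ka δ_lb - δ_la δ_kb) = 2 idA`), each term is in `GenS`.
`A8_gb`: `R = - h • idA` is an algebraic curvature tensor, `KB h R` (`ev_idA`), `Cyc β R` for every `β`; `H56D.PT n` with `β i = i` (all values simple, `H56D.AC` = `H56D.Adm`, case (1)); `(-1) ^ n * gaussBonnet n (- h • idA) = gaussBonnet n (h • idA)`.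
-/

set_option autoImplicit false

open Finset

namespace H56E

open Pool.Agent.H69Hopf
open H30K (KB Cyc)

theorem A8_cls {N : ℕ} (s : Fin N → ℕ) (a : Fin N) (c : ℝ) : Cls s (c • ei a) := by
  have key : ∀ i, (c • ei a) i ≠ 0 → i = a := by
    intro i hi
    by_contra h
    apply hi
    rw [Pi.smul_apply, ei, Pi.single_eq_of_ne h, smul_zero]
  intro i j hi hj
  rw [key i hi, key j hj]

theorem A8_sum2 {N : ℕ} (c : ℝ) (i j k l : Fin N) :
    ∑ a, ∑ b, sqf (ei a) (c • ei b) i j k l = (2 * c ^ 2) * idA N i j k l := by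
  have e : ∀ a b x y : Fin N, (ei a) x * (c • ei b) y = c * ((if x = a then 1 else 0) * (if y = b then 1 else 0)) := by
    intro a b x y
    rw [Pi.smul_apply, ei, ei, Pi.single_apply, Pi.single_apply, smul_eq_mul]
    ring
  have e2 : ∀ a b x y : Fin N, sqf (ei a) (c • ei b) i j k l =
      c ^ 2 * (((if i = a then (1:ℝ) else 0) * (if k = a then 1 else 0)) * ((if j = b then 1 else 0) * (if l = b then 1 else 0))
        - ((if i = a then (1:ℝ) else 0) * (if l = a then 1 else 0)) * ((if j = b then 1 else 0) * (if k = b then 1 else 0))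
        - ((if j = a then (1:ℝ) else 0) * (if k = a then 1 else 0)) * ((if i = b then 1 else 0) * (if l = b then 1 else 0))
        + ((if j = a then (1:ℝ) else 0) * (if l = a then 1 else 0)) * ((if i = b then 1 else 0) * (if k = b then 1 else 0))) := by
    intro a b x y
    unfold sqf
    rw [e, e, e, e]
    ring
  have e3 : ∀ x y : Fin N, ∑ a : Fin N, ((if x = a then (1:ℝ) else 0) * (if y = a then 1 else 0)) = if x = y then 1 else 0 := by
    intro x y
    rw [Finset.sum_eq_single x]
    · rw [if_pos rfl, one_mul]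
      by_cases h : x = y
      · rw [if_pos h, if_pos h.symm]
      · rw [if_neg h, if_neg (fun h' => h h'.symm)]
    · intro b _ hb
      rw [if_neg (fun h => hb h.symm), zero_mul]
    · intro h; exact absurd (Finset.mem_univ _) h
  have e4 : ∀ x y z w : Fin N, ∑ a : Fin N, ∑ b : Fin N, ((if x = a then (1:ℝ) else 0) * (if y = a then 1 else 0)) * ((if z = b then 1 else 0) * (if w = b then 1 else 0)) =
      (if x = y then 1 else 0) * (if z = w then 1 else 0) := by
    intro x y z w
    rw [← Finset.sum_mul_sum, e3, e3]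
  have e5 : ∑ a, ∑ b, sqf (ei a) (c • ei b) i j k l = c ^ 2 * (∑ a : Fin N, ∑ b : Fin N, ((if i = a then (1:ℝ) else 0) * (if k = a then 1 else 0)) * ((if j = b then 1 else 0) * (if l = b then 1 else 0))
        - ∑ a : Fin N, ∑ b : Fin N, ((if i = a then (1:ℝ) else 0) * (if l = a then 1 else 0)) * ((if j = b then 1 else 0) * (if k = b then 1 else 0))
        - ∑ a : Fin N, ∑ b : Fin N, ((if j = a then (1:ℝ) else 0) * (if k = a then 1 else 0)) * ((if i = b then 1 else 0) * (if l = b then 1 else 0))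
        + ∑ a : Fin N, ∑ b : Fin N, ((if j = a then (1:ℝ) else 0) * (if l = a then 1 else 0)) * ((if i = b then 1 else 0) * (if k = b then 1 else 0))) := by
    rw [← Finset.sum_sub_distrib, ← Finset.sum_sub_distrib, ← Finset.sum_add_distrib, Finset.mul_sum]
    refine Finset.sum_congr rfl fun a _ => ?_
    rw [← Finset.sum_sub_distrib, ← Finset.sum_sub_distrib, ← Finset.sum_add_distrib, Finset.mul_sum]
    exact Finset.sum_congr rfl fun b _ => e2 a b a b
  rw [e5, e4, e4, e4, e4]
  unfold idA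
  ring

theorem A8_mem {N : ℕ} (s : Fin N → ℕ) (B : ℕ → Arr N) {h : ℝ} (hh : 0 ≤ h) : h • idA N ∈ AddSubmonoid.closure (GenS s B) := by
  have e : h • idA N = ∑ a : Fin N, ∑ b : Fin N, sqf (ei a) (Real.sqrt (h / 2) • ei b) := by
    funext i j k l
    have h1 : (∑ a : Fin N, ∑ b : Fin N, sqf (ei a) (Real.sqrt (h / 2) • ei b)) i j k l =
        ∑ a : Fin N, ∑ b : Fin N, sqf (ei a) (Real.sqrt (h / 2) • ei b) i j k l := by
      simp only [Finset.sum_apply]
    rw [h1, A8_sum2, Real.sq_sqrt (by positivity)]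
    simp only [Pi.smul_apply, smul_eq_mul]
    ring
  rw [e]
  refine AddSubmonoid.sum_mem _ fun a _ => AddSubmonoid.sum_mem _ fun b _ => AddSubmonoid.subset_closure ?_
  refine Or.inr ⟨ei a, Real.sqrt (h / 2) • ei b, ?_, A8_cls s b _, rfl⟩
  have h2 := A8_cls s a 1
  rwa [one_smul] at h2

theorem A8_neg {n : ℕ} (R : Arr (2 * n)) : gaussBonnet n (fun i j k l => - R i j k l) = (-1) ^ n * gaussBonnet n R := by
  unfold gaussBonnet
  rw [Finset.mul_sum]
  refine Finset.sum_congr rfl fun σ _ => ?_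
  rw [Finset.mul_sum]
  refine Finset.sum_congr rfl fun τ _ => ?_
  have h : ∏ i : Fin n, -R (σ (fst i)) (σ (snd i)) (τ (fst i)) (τ (snd i)) = (-1) ^ n * ∏ i : Fin n, R (σ (fst i)) (σ (snd i)) (τ (fst i)) (τ (snd i)) := by
    have h1 : ∀ i : Fin n, -R (σ (fst i)) (σ (snd i)) (τ (fst i)) (τ (snd i)) = (-1) * R (σ (fst i)) (σ (snd i)) (τ (fst i)) (τ (snd i)) := fun i => by ring
    simp only [h1]
    rw [Finset.prod_mul_distrib, Finset.prod_const, Finset.card_univ, Fintype.card_fin]
  rw [h]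
  ring

theorem A8_curv {N : ℕ} (h : ℝ) : IsAlgCurv (fun i j k l : Fin N => -(h * idA N i j k l)) := by
  have hs : ∀ (i k : Fin N), (if i = k then (1:ℝ) else 0) = if k = i then 1 else 0 := by
    intro i k
    by_cases hh : i = k
    · rw [if_pos hh, if_pos hh.symm]
    · rw [if_neg hh, if_neg (fun h' => hh h'.symm)]
  refine ⟨fun i j k l => ?_, fun i j k l => ?_, fun i j k l => ?_⟩
  · unfold idA; ring
  · unfold idA
    rw [hs k i, hs l j, hs k j, hs l i]
    ring
  · unfold idA
    rw [hs j i, hs k i, hs k j]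
    ring

theorem A8_gb (n : ℕ) {h : ℝ} (hh : 0 ≤ h) : 4 ^ n * (n.factorial : ℝ) * h ^ n ≤ gaussBonnet n (h • idA (2 * n)) := by
  have hcyc : Cyc (fun i : Fin (2 * n) => (i.1 : ℝ)) (fun i j k l : Fin (2 * n) => -(h * idA (2 * n) i j k l)) := by
    intro i j k l
    unfold idA
    by_cases h1 : i = k <;> by_cases h2 : j = l <;> by_cases h3 : i = l <;> by_cases h4 : j = k <;> by_cases h5 : i = j <;> by_cases h6 : k = l <;>
      simp_all [eq_comm]
  have hone : ∀ i : Fin (2 * n), H56C.cl (fun i : Fin (2 * n) => (i.1 : ℝ)) i = 1 := by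
    intro i
    unfold H56C.cl
    rw [Finset.card_eq_one]
    refine ⟨i, ?_⟩
    ext j
    simp only [Finset.mem_filter, Finset.mem_univ, true_and, Finset.mem_singleton, Nat.cast_inj]
    exact ⟨fun h' => Fin.ext h', fun h' => by rw [h']⟩
  have hadm : H56D.Adm (fun i : Fin (2 * n) => (i.1 : ℝ)) := by
    refine Or.inl ⟨fun i j hi hj => ?_, fun i => ?_⟩
    · rw [hone i] at hi; omega
    · rw [hone i]; omega
  have hkb : KB h (fun i j k l : Fin (2 * n) => -(h * idA (2 * n) i j k l)) := by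
    intro v w
    have e : ev (fun i j k l : Fin (2 * n) => -(h * idA (2 * n) i j k l)) v w v w = -(h * ev (idA (2 * n)) v w v w) := by
      unfold ev
      rw [Finset.mul_sum, ← Finset.sum_neg_distrib]
      refine Finset.sum_congr rfl fun i _ => ?_
      rw [Finset.mul_sum, ← Finset.sum_neg_distrib]
      refine Finset.sum_congr rfl fun j _ => ?_
      rw [Finset.mul_sum, ← Finset.sum_neg_distrib]
      refine Finset.sum_congr rfl fun k _ => ?_
      rw [Finset.mul_sum, ← Finset.sum_neg_distrib]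
      refine Finset.sum_congr rfl fun l _ => ?_
      ring
    rw [e, ev_idA]
    have e2 : dot v v * dot w w - dot v w * dot w v = area2 v w := by
      unfold dot area2
      have e3 : ∑ i, w i * v i = ∑ i, v i * w i := Finset.sum_congr rfl fun i _ => mul_comm _ _
      rw [e3]
      simp only [pow_two]
    rw [e2]
  have hPT := H56D.PT n (fun i j k l : Fin (2 * n) => -(h * idA (2 * n) i j k l)) (A8_curv h) (fun i : Fin (2 * n) => (i.1 : ℝ)) hcyc hadm h hh hkb
  have e := A8_neg (n := n) (fun i j k l => h * idA (2 * n) i j k l)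
  rw [e, ← mul_assoc] at hPT
  have e2 : ((-1 : ℝ) ^ n * (-1) ^ n) = 1 := by
    rw [← mul_pow]; norm_num
  rw [e2, one_mul] at hPT
  exact hPT

end H56E
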