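import Pool.Agent.Lib.H56E.Defs
import Pool.Agent.Lib.H56C.L5

/-!
# A1 (M): orthonormal frames adapted to the classes and to two vectors

`area2 u v ≠ 0`, so `u ≠ 0`: choose `i0` with `u i0 ≠ 0`. The reflection `P` (symmetric, orthogonal, `P a b ≠ 0 → a = b ∨ (s a = s i0 ∧ s b = s i0)`) with `P a i0 = u a / |u|` (see the proof of `H56C.L5`: `z = e_{i0} - u / |u|`). In the
coordinates `v' b = ∑ a, P a b * v a` (`Cls s v'`: if `s` of the class of `v` is not `s i0` then `v' = v`) the vector `w = v' - v' i0 • e_{i0}` has `w i0 = 0`, `w ≠ 0` (otherwise `v = v' i0 • u / |u|`, area zero) and `Cls s w`; `H56C.L5` with `e := i0`, `w`, `β i = (s i : ℝ)` gives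
`π`, `g'`; `g k a = ∑ b, P a b * g' k b`, `f = π`.
-/

set_option autoImplicit false

open Finset

namespace H56E

open Pool.Agent.H69Hopf

/-- the reflection which maps the unit vector `i0` to the direction of `u` -/
theorem a1_refl {N : ℕ} {s : Fin N → ℕ} {u : Fin N → ℝ} (hu : Cls s u) {i0 : Fin N} (h0 : u i0 ≠ 0) :
    ∃ (n : ℝ) (P : Fin N → (Fin N → ℝ)), ONF P ∧ (∀ a b, P a b = P b a) ∧ (∀ a b, P a b ≠ 0 → s a = s b) ∧ u = n • P i0 := by
  classical
  have hpos : 0 < dot u u := by
    unfold dot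
    exact Finset.sum_pos' (fun i _ => mul_self_nonneg _) ⟨i0, Finset.mem_univ _, mul_self_pos.2 h0⟩
  obtain ⟨n, hn⟩ : ∃ n, n = Real.sqrt (dot u u) := ⟨_, rfl⟩
  have hn0 : 0 < n := by rw [hn]; exact Real.sqrt_pos.2 hpos
  have hn2 : n * n = dot u u := by rw [hn]; exact Real.mul_self_sqrt hpos.le
  obtain ⟨p, hp⟩ : ∃ p : Fin N → ℝ, ∀ a, p a = u a / n := ⟨fun a => u a / n, fun a => rfl⟩
  have hpp : ∑ a, p a * p a = 1 := by
    have h1 : ∀ a, p a * p a = (u a * u a) / (n * n) := fun a => by rw [hp]; field_simp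
    rw [Finset.sum_congr rfl fun a _ => h1 a, ← Finset.sum_div, hn2]
    exact div_self hpos.ne'
  obtain ⟨z, hz⟩ : ∃ z : Fin N → ℝ, ∀ a, z a = (if a = i0 then 1 else 0) - p a := ⟨fun a => (if a = i0 then 1 else 0) - p a, fun a => rfl⟩
  have hzz : ∑ a, z a * z a = 2 * z i0 := by
    have h1 : ∀ a, z a * z a = (if a = i0 then 1 else 0) - 2 * (if a = i0 then p a else 0) + p a * p a := by
      intro a
      rw [hz]
      split_ifs <;> ring
    rw [Finset.sum_congr rfl fun a _ => h1 a, Finset.sum_add_distrib, Finset.sum_sub_distrib, ← Finset.mul_sum, hpp]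
    simp only [Finset.sum_ite_eq', Finset.mem_univ, if_true]
    rw [hz i0, if_pos rfl]
    ring
  obtain ⟨c, hc⟩ : ∃ c : ℝ, c = 2 / ∑ a, z a * z a := ⟨_, rfl⟩
  have hcc : ∑ a, z a * z a ≠ 0 → c * ∑ a, z a * z a = 2 := fun h => by rw [hc]; exact div_mul_cancel₀ _ h
  have hc0 : ∑ a, z a * z a = 0 → c = 0 := fun h => by rw [hc, h, div_zero]
  have hz0 : ∀ a, z a ≠ 0 → s a = s i0 := by
    intro a ha
    by_cases h : a = i0
    · rw [h]
    · apply hu a i0 _ h0
      intro h1
      apply ha
      rw [hz, if_neg h, hp, h1, zero_div, sub_zero]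
  obtain ⟨P, hP⟩ : ∃ P : Fin N → Fin N → ℝ, ∀ a b, P a b = (if a = b then 1 else 0) - c * z a * z b :=
    ⟨fun a b => (if a = b then 1 else 0) - c * z a * z b, fun a b => rfl⟩
  refine ⟨n, P, ?_, ?_, ?_, ?_⟩
  · intro x y
    unfold dot
    have h1 : ∀ a, P x a * P y a = (if x = a then (if y = a then 1 else 0) else 0) - (if x = a then c * z a * z y else 0) -
        (if y = a then c * z a * z x else 0) + c * c * z x * z y * (z a * z a) := by
      intro a
      rw [hP, hP]
      split_ifs <;> ring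
    rw [Finset.sum_congr rfl fun a _ => h1 a, Finset.sum_add_distrib, Finset.sum_sub_distrib, Finset.sum_sub_distrib, ← Finset.mul_sum]
    simp only [Finset.sum_ite_eq, Finset.mem_univ, if_true]
    have hxy : (if y = x then (1 : ℝ) else 0) = if x = y then 1 else 0 := by
      by_cases h : x = y
      · rw [if_pos h, if_pos h.symm]
      · rw [if_neg h, if_neg (Ne.symm h)]
    rw [hxy]
    by_cases h : ∑ a, z a * z a = 0
    · rw [hc0 h]
      ring
    · have h2 := hcc h
      linear_combination (c * z x * z y) * h2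
  · intro a b
    rw [hP, hP]
    by_cases h : a = b
    · rw [h]
    · rw [if_neg h, if_neg (Ne.symm h)]
      ring
  · intro a b h
    rw [hP] at h
    by_cases hab : a = b
    · rw [hab]
    · rw [if_neg hab] at h
      have ha : z a ≠ 0 := by
        intro h1
        apply h
        rw [h1]
        ring
      have hb : z b ≠ 0 := by
        intro h1
        apply h
        rw [h1]
        ring
      rw [hz0 a ha, hz0 b hb]
  · funext a
    show u a = n * P i0 a
    have hPi : P i0 a = p a := by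
      rw [hP]
      by_cases h : ∑ a, z a * z a = 0
      · have h3 : z a = 0 := by
          have h4 := (Finset.sum_eq_zero_iff_of_nonneg (fun i _ => mul_self_nonneg (z i))).1 h a (Finset.mem_univ _)
          exact mul_self_eq_zero.1 h4
        rw [hc0 h]
        have h5 := hz a
        rw [h3] at h5
        have h6 : (if i0 = a then (1 : ℝ) else 0) = if a = i0 then 1 else 0 := by
          by_cases h : a = i0
          · rw [if_pos h, if_pos h.symm]
          · rw [if_neg h, if_neg (Ne.symm h)]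
        rw [h6]
        linarith
      · have h2 := hcc h
        rw [hzz] at h2
        have h3 : c * z i0 = 1 := by linarith
        have h4 := hz a
        have h6 : (if i0 = a then (1 : ℝ) else 0) = if a = i0 then 1 else 0 := by
          by_cases h : a = i0
          · rw [if_pos h, if_pos h.symm]
          · rw [if_neg h, if_neg (Ne.symm h)]
        rw [h6]
        linear_combination (-(z a)) * h3 - h4
    rw [hPi, hp]
    field_simp

/-- coordinates in a symmetric orthonormal frame -/
theorem a1_coord {N : ℕ} {P : Fin N → (Fin N → ℝ)} (hP : ONF P) (hs : ∀ a b, P a b = P b a) (v : Fin N → ℝ) :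
    comb P (fun b => dot v (P b)) = v := by
  classical
  funext a
  show ∑ b, dot v (P b) * P b a = v a
  have h1 : ∀ b, dot v (P b) * P b a = ∑ x, v x * (P b x * P b a) := by
    intro b
    unfold dot
    rw [Finset.sum_mul]
    exact Finset.sum_congr rfl fun x _ => by ring
  rw [Finset.sum_congr rfl fun b _ => h1 b, Finset.sum_comm]
  have h2 : ∀ x, ∑ b, v x * (P b x * P b a) = if x = a then v x else 0 := by
    intro x
    rw [← Finset.mul_sum]
    have h3 : ∑ b, P b x * P b a = dot (P x) (P a) := by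
      unfold dot
      exact Finset.sum_congr rfl fun b _ => by rw [hs b x, hs b a]
    rw [h3, hP x a]
    split_ifs <;> ring
  rw [Finset.sum_congr rfl fun x _ => h2 x]
  simp only [Finset.sum_ite_eq', Finset.mem_univ, if_true]

theorem A1 {N : ℕ} {s : Fin (N + 1 + 1) → ℕ} {u v : Fin (N + 1 + 1) → ℝ} (hu : Cls s u) (hv : Cls s v) (h : area2 u v ≠ 0) :
    ∃ (g : Fin (N + 1 + 1) → (Fin (N + 1 + 1) → ℝ)) (f : Fin (N + 1 + 1) → Fin (N + 1 + 1)), Function.Injective f ∧ ONF g ∧ (∀ k j, g k j ≠ 0 → s j = s (f k)) ∧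
      ∃ a b c : ℝ, u = a • g 0 ∧ v = b • g 0 + c • g 1 := by
  classical
  have hu0 : ∃ i0, u i0 ≠ 0 := by
    by_contra hno
    push Not at hno
    apply h
    unfold area2
    have h1 : ∑ i, u i ^ 2 = 0 := Finset.sum_eq_zero fun i _ => by rw [hno i]; ring
    have h2 : ∑ i, u i * v i = 0 := Finset.sum_eq_zero fun i _ => by rw [hno i]; ring
    rw [h1, h2]
    ring
  obtain ⟨i0, hi0⟩ := hu0
  obtain ⟨n, P, hP, hPs, hPc, hun⟩ := a1_refl hu hi0
  obtain ⟨v', hv'⟩ : ∃ v' : Fin (N + 1 + 1) → ℝ, v' = fun b => dot v (P b) := ⟨_, rfl⟩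
  have hvc : comb P v' = v := by
    rw [hv']
    exact a1_coord hP hPs v
  obtain ⟨w, hw⟩ : ∃ w : Fin (N + 1 + 1) → ℝ, ∀ b, w b = v' b - (if b = i0 then v' i0 else 0) := ⟨fun b => v' b - (if b = i0 then v' i0 else 0), fun b => rfl⟩
  have hw0 : w i0 = 0 := by
    rw [hw, if_pos rfl, sub_self]
  have hvw : ∀ a, v a = comb P w a + v' i0 * P i0 a := by
    intro a
    rw [← hvc]
    show ∑ b, v' b * P b a = ∑ b, w b * P b a + v' i0 * P i0 a
    have h1 : ∀ b, v' b * P b a = w b * P b a + if b = i0 then v' i0 * P i0 a else 0 := by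
      intro b
      rw [hw]
      by_cases hb : b = i0
      · rw [if_pos hb, if_pos hb, hb]
        ring
      · rw [if_neg hb, if_neg hb]
        ring
    rw [Finset.sum_congr rfl fun b _ => h1 b, Finset.sum_add_distrib]
    simp only [Finset.sum_ite_eq', Finset.mem_univ, if_true]
  have hw1 : ∃ i1, w i1 ≠ 0 := by
    by_contra hno
    push Not at hno
    apply h
    have h1 : v = v' i0 • P i0 := by
      funext a
      rw [hvw a]
      show ∑ b, w b * P b a + v' i0 * P i0 a = v' i0 * P i0 a
      rw [Finset.sum_eq_zero fun b _ => by rw [hno b, zero_mul], zero_add]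
    have h2 := hP i0 i0
    rw [if_pos rfl] at h2
    rw [area2_eq, h1, hun]
    simp only [dot_smul_left, dot_smul_right, h2]
    ring
  obtain ⟨i1, hi1⟩ := hw1
  have hne : i1 ≠ i0 := by
    intro h1
    rw [h1] at hi1
    exact hi1 hw0
  have hcl : ∀ j, w j ≠ 0 → ∃ a, v a ≠ 0 ∧ s a = s j := by
    intro j hj
    have h1 : v' j ≠ 0 := by
      intro h1
      apply hj
      rw [hw, h1]
      by_cases hb : j = i0
      · rw [if_pos hb, ← hb, h1, sub_self]
      · rw [if_neg hb, sub_zero]
    by_contra hno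
    push Not at hno
    apply h1
    rw [hv']
    show ∑ a, v a * P j a = 0
    refine Finset.sum_eq_zero fun a _ => ?_
    by_cases ha : v a = 0
    · rw [ha, zero_mul]
    · by_cases hb : P j a = 0
      · rw [hb, mul_zero]
      · exact absurd (hPc j a hb).symm (hno a ha)
  have hws : ∀ j, w j ≠ 0 → ((s j : ℕ) : ℝ) = ((s i1 : ℕ) : ℝ) := by
    intro j hj
    obtain ⟨a, ha, hsa⟩ := hcl j hj
    obtain ⟨b, hb, hsb⟩ := hcl i1 hi1
    rw [← hsa, ← hsb, hv a b ha hb]
  obtain ⟨π, g', hπ0, hπ1, hg', hg0, hg1, hgs, hge⟩ := H56C.L5 (β := fun j => ((s j : ℕ) : ℝ)) hne hw0 hws hi1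
  refine ⟨fun k => comb P (g' k), π, π.injective, ?_, ?_, n, v' i0, Real.sqrt (dot w w), ?_, ?_⟩
  · intro k l
    rw [dot_comb hP]
    exact hg' k l
  · intro k j hkj
    by_contra hno
    apply hkj
    show ∑ b, g' k b * P b j = 0
    refine Finset.sum_eq_zero fun b _ => ?_
    by_cases ha : g' k b = 0
    · rw [ha, zero_mul]
    · by_cases hb : P b j = 0
      · rw [hb, mul_zero]
      · exfalso
        apply hno
        have h1 : ((s b : ℕ) : ℝ) = ((s (π k) : ℕ) : ℝ) := hgs k b ha
        have h2 : s b = s (π k) := by exact_mod_cast h1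
        rw [← h2, hPc b j hb]
  · rw [hun]
    congr 1
    funext a
    show P i0 a = ∑ b, g' 0 b * P b a
    rw [hg0]
    have h1 : ∀ b, (Pi.single i0 (1 : ℝ) : Fin (N + 1 + 1) → ℝ) b * P b a = if b = i0 then P i0 a else 0 := by
      intro b
      rw [Pi.single_apply]
      by_cases hb : b = i0
      · rw [if_pos hb, if_pos hb, hb, one_mul]
      · rw [if_neg hb, if_neg hb, zero_mul]
    rw [Finset.sum_congr rfl fun b _ => h1 b]
    simp only [Finset.sum_ite_eq', Finset.mem_univ, if_true]
  · funext a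
    rw [hvw a]
    show ∑ b, w b * P b a + v' i0 * P i0 a = v' i0 * (∑ b, g' 0 b * P b a) + Real.sqrt (dot w w) * ∑ b, g' 1 b * P b a
    have h0 : ∑ b, g' 0 b * P b a = P i0 a := by
      rw [hg0]
      have h1 : ∀ b, (Pi.single i0 (1 : ℝ) : Fin (N + 1 + 1) → ℝ) b * P b a = if b = i0 then P i0 a else 0 := by
        intro b
        rw [Pi.single_apply]
        by_cases hb : b = i0
        · rw [if_pos hb, if_pos hb, hb, one_mul]
        · rw [if_neg hb, if_neg hb, zero_mul]
      rw [Finset.sum_congr rfl fun b _ => h1 b]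
      simp only [Finset.sum_ite_eq', Finset.mem_univ, if_true]
    rw [h0, Finset.mul_sum, add_comm]
    congr 1
    exact Finset.sum_congr rfl fun b _ => by rw [hg1 b]; ring

end H56E
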