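import Pool.Agent.Lib.H56E.Defs

/-!
# A12B (S/M): admissible clusters are inherited

`cl (fun k => (s (f k) : ℝ)) k ≤ cln s (f k)` etc. (as `H56C.L8`, `Lib/H56C/L8.lean`, and `H56D.adm_her`, `Lib/H56D/B2.lean`; all `f k` are in the cluster `a`).
-/

set_option autoImplicit false

open Finset

namespace H56E

open Pool.Agent.H69Hopf

theorem a12b_le {M N : ℕ} (s : Fin N → ℕ) {f : Fin M → Fin N} (hf : Function.Injective f) (i : Fin M) : H56C.cl (fun k => (s (f k) : ℝ)) i ≤ cln s (f i) := by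
  classical
  unfold H56C.cl cln
  rw [← Finset.card_image_of_injective _ hf]
  apply Finset.card_le_card
  intro x hx
  obtain ⟨j, hj, rfl⟩ := Finset.mem_image.1 hx
  have h : ((s (f j) : ℕ) : ℝ) = ((s (f i) : ℕ) : ℝ) := (Finset.mem_filter.1 hj).2
  exact Finset.mem_filter.2 ⟨Finset.mem_univ _, Nat.cast_injective h⟩

theorem a12b_card {M N : ℕ} {s t : Fin N → ℕ} {a : ℕ} {f : Fin M → Fin N} (hf : Function.Injective f) (hta : ∀ k, t (f k) = a) :
    (Finset.univ.filter fun i => 2 ≤ H56C.cl (fun k => (s (f k) : ℝ)) i).card ≤ (Finset.univ.filter fun i => t i = a ∧ 2 ≤ cln s i).card := by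
  classical
  rw [← Finset.card_image_of_injective _ hf]
  apply Finset.card_le_card
  intro x hx
  obtain ⟨j, hj, rfl⟩ := Finset.mem_image.1 hx
  exact Finset.mem_filter.2 ⟨Finset.mem_univ _, hta j, le_trans (Finset.mem_filter.1 hj).2 (a12b_le s hf j)⟩

theorem A12_adm {M N : ℕ} {s t : Fin N → ℕ} {a : ℕ} (hA : AdmIn s t a) {f : Fin M → Fin N} (hf : Function.Injective f) (hta : ∀ k, t (f k) = a) : H56D.Adm (fun k => (s (f k) : ℝ)) := by
  classical
  rcases hA with ⟨h1, h2⟩ | ⟨h1, h2, h3⟩ | ⟨h1, h3⟩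
  · refine Or.inl ⟨fun i j hi hj => ?_, fun i => le_trans (a12b_le s hf i) (h2 _ (hta i))⟩
    have h4 := h1 (f i) (f j) (hta i) (hta j) (le_trans hi (a12b_le s hf i)) (le_trans hj (a12b_le s hf j))
    show ((s (f i) : ℕ) : ℝ) = ((s (f j) : ℕ) : ℝ)
    rw [h4]
  · refine Or.inr (Or.inl ⟨fun i => le_trans (a12b_le s hf i) (h1 _ (hta i)), fun i j hi hj => ?_, le_trans (a12b_card hf hta) h3⟩)
    have hi' := a12b_le s hf i
    have hj' := a12b_le s hf j
    rw [hi] at hi'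
    rw [hj] at hj'
    have h4 := h2 (f i) (f j) (hta i) (hta j) (le_antisymm (h1 _ (hta i)) hi') (le_antisymm (h1 _ (hta j)) hj')
    show ((s (f i) : ℕ) : ℝ) = ((s (f j) : ℕ) : ℝ)
    rw [h4]
  · exact Or.inr (Or.inr ⟨fun i => le_trans (a12b_le s hf i) (h1 _ (hta i)), le_trans (a12b_card hf hta) h3⟩)

end H56E
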