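import Pool.Agent.Lib.H56E.A8
import Pool.Agent.Lib.H56E.A11
import Pool.Agent.Lib.H56E.A12A
import Pool.Agent.Lib.H56E.A12B

/-!
# A12 (M): the clusters are positive

`pull v (blk t a X) = pull v X` (`v k` is supported in the cluster `a`), `X = xr h R`, `pull v X = - (pull v R + h idA)` (`pull_idA`), `A8_neg`, `H56D.PT r` for `pull v R + h idA` (`IsAlgCurv`: `H56C.L4_alg`; `KB 0` from `KB h (pull v R)`: `H56C.L4_kb`, `ev_idA`, `area2_eq`;
`Cyc`: `A12_cyc`, `H56C.L4_cyc` with `f` of `A12_inj` (`v k j ≠ 0`, `v k (f k) ≠ 0`, `Cls`: `s j = s (f k)`), and `idA` is `Cyc` for every `β`; `A12_adm`: `t (f k) = a`) gives `4 ^ r r! 0 ^ r ≤ (-1) ^ r gaussBonnet r (..)`.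
-/

set_option autoImplicit false

open Finset

namespace H56E

open Pool.Agent.H69Hopf
open H30K (KB Cyc)

theorem a12_pull {M N : ℕ} (R : Arr N) (t : Fin N → ℕ) (a : ℕ) (h : ℝ) (v : Fin M → (Fin N → ℝ)) (hs : ∀ k i, v k i ≠ 0 → t i = a) :
    pull v (blk t a (xr h R)) = fun i j k l => - pull v (fun i j k l => R i j k l - (-h) * idA N i j k l) i j k l := by
  funext i j k l
  unfold pull ev
  rw [← Finset.sum_neg_distrib]
  refine Finset.sum_congr rfl fun p _ => ?_
  rw [← Finset.sum_neg_distrib]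
  refine Finset.sum_congr rfl fun q _ => ?_
  rw [← Finset.sum_neg_distrib]
  refine Finset.sum_congr rfl fun u _ => ?_
  rw [← Finset.sum_neg_distrib]
  refine Finset.sum_congr rfl fun w _ => ?_
  unfold blk xr
  by_cases h0 : v i p = 0
  · rw [h0]
    ring
  by_cases h1 : v j q = 0
  · rw [h1]
    ring
  by_cases h2 : v k u = 0
  · rw [h2]
    ring
  by_cases h3 : v l w = 0
  · rw [h3]
    ring
  rw [if_pos ⟨hs _ _ h0, hs _ _ h1, hs _ _ h2, hs _ _ h3⟩]
  ring

theorem a12_type {N : ℕ} {R : Arr N} {s : Fin N → ℕ} (hT : ∀ i j k l, R i j k l ≠ 0 → (s i = s k ∧ s j = s l) ∨ (s i = s l ∧ s j = s k)) (h : ℝ)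
    (i j k l : Fin N) (hne : R i j k l - (-h) * idA N i j k l ≠ 0) : (s i = s k ∧ s j = s l) ∨ (s i = s l ∧ s j = s k) := by
  by_cases h0 : R i j k l = 0
  · by_cases h1 : i = k ∧ j = l
    · exact Or.inl ⟨by rw [h1.1], by rw [h1.2]⟩
    · by_cases h2 : i = l ∧ j = k
      · exact Or.inr ⟨by rw [h2.1], by rw [h2.2]⟩
      · exfalso
        apply hne
        have e1 : (if i = k then (1 : ℝ) else 0) * (if j = l then 1 else 0) = 0 := by
          by_cases h3 : i = k
          · rw [if_neg (fun h4 : j = l => h1 ⟨h3, h4⟩), mul_zero]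
          · rw [if_neg h3, zero_mul]
        have e2 : (if i = l then (1 : ℝ) else 0) * (if j = k then 1 else 0) = 0 := by
          by_cases h3 : i = l
          · rw [if_neg (fun h4 : j = k => h2 ⟨h3, h4⟩), mul_zero]
          · rw [if_neg h3, zero_mul]
        unfold idA
        rw [h0, e1, e2]
        ring
  · exact hT i j k l h0

theorem A12 {N : ℕ} {R : Arr N} (hR : IsAlgCurv R) {s t : Fin N → ℕ} (hT : ∀ i j k l, R i j k l ≠ 0 → (s i = s k ∧ s j = s l) ∨ (s i = s l ∧ s j = s k))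
    (hA : ∀ a, AdmIn s t a) {h : ℝ} (hh : 0 ≤ h) (hK : KB h R) : Pos s t (fun a => blk t a (xr h R)) := by
  refine ⟨fun a i j k l hne => ?_, fun a r v hv hcls hsup => ?_⟩
  · by_contra hc
    apply hne
    show blk t a (xr h R) i j k l = 0
    unfold blk
    rw [if_neg hc]
  · have hY := algCurv_sub_idA hR (-h)
    have hYK : KB 0 (fun i j k l => R i j k l - (-h) * idA N i j k l) := by
      intro x y
      rw [ev_sub_idA]
      have h1 := hK x y
      linarith
    have hYc := A12_cyc hY (a12_type hT h)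
    obtain ⟨f, hf, hfn⟩ := A12_inj hv
    have hPc := H56C.L4_cyc hYc (v := v) (f := f) (fun k j hkj => by
      show ((s j : ℕ) : ℝ) = ((s (f k) : ℕ) : ℝ)
      rw [hcls k j (f k) hkj (hfn k)])
    have hPA := A12_adm (hA a) hf (fun k => hsup k (f k) (hfn k))
    have h1 := H56D.PT r _ (H56C.L4_alg hY v) _ hPc hPA 0 le_rfl (H56C.L4_kb hYK hv)
    show 0 ≤ gaussBonnet r (pull v (blk t a (xr h R)))
    rw [a12_pull R t a h v hsup, A8_neg]
    refine le_trans ?_ h1
    positivity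

end H56E
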