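import Pool.Agent.Lib.H56E.A6
import Pool.Agent.Lib.H56E.A7
import Pool.Agent.Lib.H56E.A12

/-!
# A13 (S): the pointwise theorem

`s`, `t`, `P` from `Clus R`. `X = xr h R`, `- R = X + h idA`. `A8_neg`: `(-1) ^ n * gaussBonnet n R = gaussBonnet n (X + h • idA)`. `A7_mono` with `S = GenS s B`, `B a = blk t a X` (`A6`, `A12`), `A11`, `A8_mem`, `A8_gb`.
-/

set_option autoImplicit false

open Finset

namespace H56E

open Pool.Agent.H69Hopf
open H30K (KB Cyc)

theorem A13 {n : ℕ} {R : Arr (2 * n)} (hR : IsAlgCurv R) (hC : Clus R) {h : ℝ} (hh : 0 ≤ h) (hK : KB h R) :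
    4 ^ n * (n.factorial : ℝ) * h ^ n ≤ (-1) ^ n * gaussBonnet n R := by
  obtain ⟨s, t, P, hr, hT, hP, hA⟩ := hC
  have hpos := A12 hR hT hA hh hK
  have hS := A6 n s t _ hr hpos
  have hX := A11 hR (s := s) (t := t) hr hT hP hK
  have hY := A8_mem s (fun a => blk t a (xr h R)) hh
  have hm := A7_mono hS hX hY
  have h1 : xr h R + h • idA (2 * n) = fun i j k l => - R i j k l := by
    funext i j k l
    simp [xr]
  rw [h1, ← gaussBonnet_eq_mgb, ← gaussBonnet_eq_mgb, A8_neg] at hm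
  exact (A8_gb n hh).trans hm

end H56E
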