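import Pool.Agent.Lib.H56E.Defs
import Pool.Agent.Lib.H56C.K2

/-!
# A2 (M): restriction to adapted frames

`g : Fin M → (Fin N → ℝ)` orthonormal, `g k` supported in the class of `f k`.
`A2_sq`: `pull g (sqf u v) = sqf (dot (g ·) u) (dot (g ·) v)` (expand; `ev` of a product of four linear forms, cf. `ev_outer` in `Lib/H69/Hopf/Cof.lean`, four terms). `A2_cls`: if `dot (g k) u ≠ 0` then some `j` has `g k j ≠ 0`, `u j ≠ 0`,
so `s (f k) = s j`. `A2_pull`: `pull w (pull g B) = pull (fun k => comb g (w k)) B` (`ev_comb`). `A2_onf`: `dot_comb`. `A2_comb`: the vector `comb g (w k)` is supported in one class of `s` if `w k` is supported in one class of `s ∘ f`.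
`A2_inc`: supports. `A2_pos`: all of it.
-/

set_option autoImplicit false

open Finset

namespace H56E

open Pool.Agent.H69Hopf

theorem a2_ev {N : ℕ} (u v a b c d : Fin N → ℝ) :
    ev (sqf u v) a b c d = (dot u a * dot v b - dot v a * dot u b) * (dot u c * dot v d - dot v c * dot u d) := by
  have e1 := ev_outer u v u v a b c d
  have e2 := ev_outer u v v u a b c d
  have e3 := ev_outer v u u v a b c d
  have e4 := ev_outer v u v u a b c d
  have h : ev (sqf u v) a b c d = ev (fun i j k l => u i * v j * u k * v l) a b c d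
      - ev (fun i j k l => u i * v j * v k * u l) a b c d - ev (fun i j k l => v i * u j * u k * v l) a b c d
      + ev (fun i j k l => v i * u j * v k * u l) a b c d := by
    unfold ev
    simp only [← Finset.sum_sub_distrib, ← Finset.sum_add_distrib]
    refine Finset.sum_congr rfl fun i _ => Finset.sum_congr rfl fun j _ => Finset.sum_congr rfl fun k _ => Finset.sum_congr rfl fun l _ => ?_
    unfold sqf
    ring
  rw [h, e1, e2, e3, e4]
  ring

theorem A2_sq {M N : ℕ} (g : Fin M → (Fin N → ℝ)) (u v : Fin N → ℝ) : pull g (sqf u v) = sqf (fun k => dot (g k) u) (fun k => dot (g k) v) := by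
  funext i j k l
  show ev (sqf u v) (g i) (g j) (g k) (g l) = _
  rw [a2_ev]
  unfold sqf
  simp only [dot_comm (g i), dot_comm (g j), dot_comm (g k), dot_comm (g l)]
  ring

theorem A2_cls {M N : ℕ} {s : Fin N → ℕ} {g : Fin M → (Fin N → ℝ)} {f : Fin M → Fin N} (hg : ∀ k j, g k j ≠ 0 → s j = s (f k)) {u : Fin N → ℝ} (hu : Cls s u) :
    Cls (fun k => s (f k)) (fun k => dot (g k) u) := by
  have key : ∀ k, dot (g k) u ≠ 0 → ∃ j, u j ≠ 0 ∧ s j = s (f k) := by
    intro k hk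
    obtain ⟨j, _, hj⟩ := Finset.exists_ne_zero_of_sum_ne_zero hk
    exact ⟨j, right_ne_zero_of_mul hj, hg k j (left_ne_zero_of_mul hj)⟩
  intro i j hi hj
  obtain ⟨i', hi', hi''⟩ := key i hi
  obtain ⟨j', hj', hj''⟩ := key j hj
  show s (f i) = s (f j)
  rw [← hi'', ← hj'']
  exact hu i' j' hi' hj'

theorem A2_pull {L M N : ℕ} (w : Fin L → (Fin M → ℝ)) (g : Fin M → (Fin N → ℝ)) (B : Arr N) : pull w (pull g B) = pull (fun k => comb g (w k)) B := by
  funext i j k l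
  show ev (pull g B) (w i) (w j) (w k) (w l) = ev B (comb g (w i)) (comb g (w j)) (comb g (w k)) (comb g (w l))
  rw [ev_comb]

theorem A2_onf {L M N : ℕ} {w : Fin L → (Fin M → ℝ)} {g : Fin M → (Fin N → ℝ)} (hw : ONF w) (hg : ONF g) : ONF (fun k => comb g (w k)) := by
  intro i j
  show dot (comb g (w i)) (comb g (w j)) = _
  rw [dot_comb hg]
  exact hw i j

theorem a2_comb_ne {M N : ℕ} {s : Fin N → ℕ} {g : Fin M → (Fin N → ℝ)} {f : Fin M → Fin N} (hg : ∀ k j, g k j ≠ 0 → s j = s (f k)) {c : Fin M → ℝ} {j : Fin N}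
    (hj : comb g c j ≠ 0) : ∃ k, c k ≠ 0 ∧ s j = s (f k) := by
  obtain ⟨k, _, hk⟩ := Finset.exists_ne_zero_of_sum_ne_zero hj
  exact ⟨k, left_ne_zero_of_mul hk, hg k j (right_ne_zero_of_mul hk)⟩

theorem a2_ev_ne {N : ℕ} {B : Arr N} {a b c d : Fin N → ℝ} (h : ev B a b c d ≠ 0) :
    ∃ i j k l, B i j k l ≠ 0 ∧ a i ≠ 0 ∧ b j ≠ 0 ∧ c k ≠ 0 ∧ d l ≠ 0 := by
  obtain ⟨i, _, hi⟩ := Finset.exists_ne_zero_of_sum_ne_zero h
  obtain ⟨j, _, hj⟩ := Finset.exists_ne_zero_of_sum_ne_zero hi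
  obtain ⟨k, _, hk⟩ := Finset.exists_ne_zero_of_sum_ne_zero hj
  obtain ⟨l, _, hl⟩ := Finset.exists_ne_zero_of_sum_ne_zero hk
  exact ⟨i, j, k, l, left_ne_zero_of_mul (left_ne_zero_of_mul (left_ne_zero_of_mul (left_ne_zero_of_mul hl))),
    right_ne_zero_of_mul (left_ne_zero_of_mul (left_ne_zero_of_mul (left_ne_zero_of_mul hl))),
    right_ne_zero_of_mul (left_ne_zero_of_mul (left_ne_zero_of_mul hl)),
    right_ne_zero_of_mul (left_ne_zero_of_mul hl), right_ne_zero_of_mul hl⟩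

theorem A2_pos {M N : ℕ} {s t : Fin N → ℕ} {B : ℕ → Arr N} (hr : Ref s t) (hB : Pos s t B) {g : Fin M → (Fin N → ℝ)} (hg : ONF g) {f : Fin M → Fin N} (hf : ∀ k j, g k j ≠ 0 → s j = s (f k)) :
    Pos (fun k => s (f k)) (fun k => t (f k)) (fun a => pull g (B a)) := by
  refine ⟨fun a => ?_, fun a r v hv hc ht => ?_⟩
  · intro i j k l hne
    obtain ⟨i', j', k', l', hB', hi, hj, hk, hl⟩ := a2_ev_ne (show ev (B a) (g i) (g j) (g k) (g l) ≠ 0 from hne)
    obtain ⟨h1, h2, h3, h4⟩ := hB.sup a i' j' k' l' hB'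
    refine ⟨?_, ?_, ?_, ?_⟩
    · exact (hr _ _ (hf i i' hi)).symm.trans h1
    · exact (hr _ _ (hf j j' hj)).symm.trans h2
    · exact (hr _ _ (hf k k' hk)).symm.trans h3
    · exact (hr _ _ (hf l l' hl)).symm.trans h4
  · show 0 ≤ gaussBonnet r (pull v (pull g (B a)))
    rw [A2_pull]
    refine hB.pos a r (fun k => comb g (v k)) (A2_onf hv hg) (fun k => ?_) (fun k i hi => ?_)
    · intro i j hi hj
      obtain ⟨p, hp, hp'⟩ := a2_comb_ne hf hi
      obtain ⟨q, hq, hq'⟩ := a2_comb_ne hf hj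
      rw [hp', hq']
      exact hc k p q hp hq
    · obtain ⟨p, hp, hp'⟩ := a2_comb_ne hf hi
      exact (hr _ _ hp').trans (ht k p hp)

theorem A2_gen {M N : ℕ} {s : Fin N → ℕ} {B : ℕ → Arr N} {g : Fin M → (Fin N → ℝ)} {f : Fin M → Fin N} (hf : ∀ k j, g k j ≠ 0 → s j = s (f k)) {T : Arr N} (hT : T ∈ GenS s B) :
    pull g T ∈ GenS (fun k => s (f k)) (fun a => pull g (B a)) := by
  rcases hT with ⟨a, rfl⟩ | ⟨u, v, hu, hv, rfl⟩
  · exact Or.inl ⟨a, rfl⟩
  · exact Or.inr ⟨fun k => dot (g k) u, fun k => dot (g k) v, A2_cls hf hu, A2_cls hf hv, A2_sq g u v⟩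

/-- coordinate vectors -/
theorem A2_rs {M N : ℕ} (f : Fin M → Fin N) (B : Arr N) : rs f B = pull (fun k => ei (f k)) B := by
  funext i j k l
  show B (f i) (f j) (f k) (f l) = ev B (Pi.single (f i) 1) (Pi.single (f j) 1) (Pi.single (f k) 1) (Pi.single (f l) 1)
  rw [ev_single]

theorem A2_ei {M N : ℕ} {s : Fin N → ℕ} {f : Fin M → Fin N} (hf : Function.Injective f) : ONF (fun k => ei (f k)) ∧ ∀ k j, (ei (f k) : Fin N → ℝ) j ≠ 0 → s j = s (f k) := by
  refine ⟨H56C.k2_onf hf, fun k j hj => ?_⟩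
  by_cases h : j = f k
  · rw [h]
  · refine absurd ?_ hj
    show (Pi.single (f k) (1 : ℝ) : Fin N → ℝ) j = 0
    exact Pi.single_eq_of_ne h 1

end H56E
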