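import Pool.Agent.Lib.H56E.A1
import Pool.Agent.Lib.H56E.A2
import Pool.Agent.Lib.H56C.L3
import Pool.Agent.Lib.H69.Hopf.Sym

/-!
# A3 (M): an entry which is the square of a simple two-form

`A3_cons`: `consM_eq_cof`, expand `sqf` (four terms), `cof_skew1`, `cof_skew2`: each of the four sums is `ev (cof T) u v u v` up to the sign.
`A3`: move the entry `i0` to the front: `mgb T = mgb (fun i => T (swap 0 i0 i))` (`mgb_perm`), `= consM (T i0) T'` (`mgb_cons`, a function on `Fin (m + 1)` is `Fin.cons` of its first value and the rest), `T' i = T (swap 0 i0 i.succ)`. If `area2 u v = 0`: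
`ev_cof` gives `0` (left alternative). Otherwise `A1`: `ev C u v u v = (a * c) ^ 2 * ev C (g 0) (g 1) (g 0) (g 1)` (`C = cof T'` is skew in both pairs), `H56C.L3`.
-/

set_option autoImplicit false

open Finset

namespace H56E

open Pool.Agent.H69Hopf

theorem A3_cons {m : ℕ} (T : Fin m → Arr (2 * m + 1 + 1)) (u v : Fin (2 * m + 1 + 1) → ℝ) : consM (sqf u v) T = 4 * ev (cof T) u v u v := by
  have h2 : (∑ a, ∑ b, ∑ c, ∑ d, u b * v a * (u c * v d) * cof T a b c d) = - ev (cof T) u v u v := by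
    unfold ev
    rw [Finset.sum_comm, ← Finset.sum_neg_distrib]
    refine Finset.sum_congr rfl fun a _ => ?_
    rw [← Finset.sum_neg_distrib]
    refine Finset.sum_congr rfl fun b _ => ?_
    rw [← Finset.sum_neg_distrib]
    refine Finset.sum_congr rfl fun c _ => ?_
    rw [← Finset.sum_neg_distrib]
    refine Finset.sum_congr rfl fun d _ => ?_
    rw [cof_skew1]
    ring
  have h3 : (∑ a, ∑ b, ∑ c, ∑ d, u a * v b * (u d * v c) * cof T a b c d) = - ev (cof T) u v u v := by
    unfold ev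
    rw [← Finset.sum_neg_distrib]
    refine Finset.sum_congr rfl fun a _ => ?_
    rw [← Finset.sum_neg_distrib]
    refine Finset.sum_congr rfl fun b _ => ?_
    rw [Finset.sum_comm, ← Finset.sum_neg_distrib]
    refine Finset.sum_congr rfl fun c _ => ?_
    rw [← Finset.sum_neg_distrib]
    refine Finset.sum_congr rfl fun d _ => ?_
    rw [cof_skew2]
    ring
  have h4 : (∑ a, ∑ b, ∑ c, ∑ d, u b * v a * (u d * v c) * cof T a b c d) = ev (cof T) u v u v := by
    unfold ev
    rw [Finset.sum_comm]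
    refine Finset.sum_congr rfl fun a _ => Finset.sum_congr rfl fun b _ => ?_
    rw [Finset.sum_comm]
    refine Finset.sum_congr rfl fun c _ => Finset.sum_congr rfl fun d _ => ?_
    rw [cof_skew1, cof_skew2]
    ring
  have h1 : (∑ a, ∑ b, ∑ c, ∑ d, u a * v b * (u c * v d) * cof T a b c d) = ev (cof T) u v u v := by
    unfold ev
    refine Finset.sum_congr rfl fun a _ => Finset.sum_congr rfl fun b _ => Finset.sum_congr rfl fun c _ => Finset.sum_congr rfl fun d _ => ?_
    ring
  rw [consM_eq_cof]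
  have h5 : (∑ a, ∑ b, ∑ c, ∑ d, sqf u v a b c d * cof T a b c d) =
      (∑ a, ∑ b, ∑ c, ∑ d, u a * v b * (u c * v d) * cof T a b c d) - (∑ a, ∑ b, ∑ c, ∑ d, u b * v a * (u c * v d) * cof T a b c d) -
        (∑ a, ∑ b, ∑ c, ∑ d, u a * v b * (u d * v c) * cof T a b c d) + (∑ a, ∑ b, ∑ c, ∑ d, u b * v a * (u d * v c) * cof T a b c d) := by
    simp only [← Finset.sum_sub_distrib, ← Finset.sum_add_distrib]
    refine Finset.sum_congr rfl fun a _ => Finset.sum_congr rfl fun b _ => Finset.sum_congr rfl fun c _ => Finset.sum_congr rfl fun d _ => ?_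
    unfold sqf
    ring
  rw [h5, h1, h2, h3, h4]
  ring

theorem a3_scal {m : ℕ} (S S' : Arr (2 * m + 1 + 1)) (r : ℝ) (h : ∀ i j k l, S i j k l = r * S' i j k l) (T : Fin m → Arr (2 * m + 1 + 1)) :
    consM S T = r * consM S' T := by
  unfold consM
  rw [Finset.mul_sum]
  refine Finset.sum_congr rfl fun σ _ => ?_
  rw [Finset.mul_sum]
  refine Finset.sum_congr rfl fun τ _ => ?_
  rw [h, mul_assoc]

theorem a3_front {m : ℕ} (T : Fin (m + 1) → Arr (2 * (m + 1))) (i0 : Fin (m + 1)) :
    mgb T = consM (m := m) (T i0) (fun i => T (Equiv.swap 0 i0 i.succ)) := by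
  rw [← mgb_perm T (Equiv.swap 0 i0), ← mgb_cons]
  refine congrArg mgb ?_
  funext i
  refine Fin.cases ?_ (fun i => ?_) i
  · rw [Fin.cons_zero, Equiv.swap_apply_left]
  · rw [Fin.cons_succ]

theorem A3 {m : ℕ} {s : Fin (2 * (m + 1)) → ℕ} (T : Fin (m + 1) → Arr (2 * (m + 1))) (i0 : Fin (m + 1)) {u v : Fin (2 * (m + 1)) → ℝ} (hu : Cls s u) (hv : Cls s v) (hT : T i0 = sqf u v) :
    mgb T = 0 ∨ ∃ (c : ℝ) (g : Fin (2 * m) → (Fin (2 * (m + 1)) → ℝ)) (f : Fin (2 * m) → Fin (2 * (m + 1))) (I : Fin m → Fin (m + 1)), 0 ≤ c ∧ ONF g ∧ Function.Injective f ∧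
      (∀ k j, g k j ≠ 0 → s j = s (f k)) ∧ mgb T = c * mgb (fun i => pull g (T (I i))) := by
  have h1 := a3_front T i0
  rw [hT] at h1
  by_cases h : area2 u v = 0
  · left
    have h2 := A3_cons (m := m) (fun i => T (Equiv.swap 0 i0 i.succ)) u v
    obtain ⟨w, _, hw⟩ := ev_cof (m := m) (fun i => T (Equiv.swap 0 i0 i.succ)) u v
    rw [hw, h, zero_mul, mul_zero] at h2
    exact h1.trans h2
  · right
    obtain ⟨g, f, hf, hg, hgf, a, b, c, hua, hvb⟩ := A1 (N := 2 * m) (s := s) (u := u) (v := v) hu hv h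
    refine ⟨4 * (a * c) ^ 2, fun k => g k.succ.succ, fun k => f k.succ.succ, fun i => Equiv.swap 0 i0 i.succ, by positivity, ?_, ?_, ?_, ?_⟩
    · intro i j
      rw [hg]
      by_cases h : i = j
      · rw [if_pos h, h, if_pos rfl]
      · rw [if_neg h, if_neg]
        intro h'
        exact h (Fin.succ_injective _ (Fin.succ_injective _ h'))
    · intro i j h
      exact Fin.succ_injective _ (Fin.succ_injective _ (hf h))
    · intro k j h
      exact hgf _ _ h
    · have h3 : ∀ i j k l, sqf u v i j k l = (a * c) ^ 2 * sqf (g 0) (g 1) i j k l := by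
        intro i j k l
        have e1 : ∀ i, u i = a * g 0 i := fun i => by rw [hua]; rfl
        have e2 : ∀ i, v i = b * g 0 i + c * g 1 i := fun i => by rw [hvb]; rfl
        unfold sqf
        rw [e1, e1, e1, e1, e2, e2, e2, e2]
        ring
      have h4 := a3_scal (m := m) (sqf u v) (sqf (g 0) (g 1)) _ h3 (fun i => T (Equiv.swap 0 i0 i.succ))
      have h5 := A3_cons (m := m) (fun i => T (Equiv.swap 0 i0 i.succ)) (g 0) (g 1)
      rw [H56C.L3 _ hg] at h5
      rw [h5] at h4
      rw [h1]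
      refine h4.trans ?_
      ring

end H56E
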