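import Pool.Agent.Lib.H56E.Defs
import Pool.Agent.Lib.H69.Hopf.Sym

/-!
# A4 (L): the mixed form of arrays supported in complementary sets of coordinates

`lo i = i`, `hi j = 2 r + j`. `A4_sum`: a sum over the permutations of `X` of a function vanishing unless the permutation maps the first part into itself (general form of `K4_sum` in `Lib/H56C/K4.lean`).
`A4`: `mgb T = ∑ σ, ∑ τ, ...`; a term is nonzero only if `σ` and `τ` map the indices `< 2 r` (= `fst i`, `snd i` for `i < r`) to indices `< 2 r`; `σ = σ₁ ⊕ σ₂`, the sign is the product (`Equiv.Perm.sign_sumCongr`, `sign_permCongr`),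
the product over `Fin (r + q)` splits (`Fin.prod_univ_add`), `fst (castAdd q i) = lo (fst i)`, `fst (natAdd r j) = hi (fst j)`.
-/

set_option autoImplicit false

open Finset

namespace H56E

open Pool.Agent.H69Hopf

/-- the first `2 r` indices -/
def lo (r q : ℕ) (i : Fin (2 * r)) : Fin (2 * (r + q)) := ⟨i.1, by omega⟩

/-- the other indices -/
def hi (r q : ℕ) (j : Fin (2 * q)) : Fin (2 * (r + q)) := ⟨2 * r + j.1, by omega⟩

/-- the partition of the indices into the first `2 r` and the others -/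
def a4e (r q : ℕ) : Fin (2 * r) ⊕ Fin (2 * q) ≃ Fin (2 * (r + q)) where
  toFun := Sum.elim (lo r q) (hi r q)
  invFun i := if h : i.1 < 2 * r then Sum.inl ⟨i.1, h⟩ else Sum.inr ⟨i.1 - 2 * r, by have := i.2; omega⟩
  left_inv := by
    rintro (i | i)
    · have h : (lo r q i).1 < 2 * r := i.2
      simp only [Sum.elim_inl, dif_pos h]
      rfl
    · have h : ¬ (hi r q i).1 < 2 * r := by simp only [hi]; omega
      simp only [Sum.elim_inr, dif_neg h]
      congr 1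
      apply Fin.ext
      simp only [hi]
      omega
  right_inv := by
    intro i
    by_cases h : i.1 < 2 * r
    · simp only [dif_pos h]
      rfl
    · simp only [dif_neg h]
      apply Fin.ext
      simp only [Sum.elim_inr, hi]
      omega

/-- block permutations -/
def a4p (r q : ℕ) (p : Equiv.Perm (Fin (2 * r)) × Equiv.Perm (Fin (2 * q))) : Equiv.Perm (Fin (2 * (r + q))) :=
  (a4e r q).permCongr (Equiv.Perm.sumCongr p.1 p.2)

lemma a4p_lo {r q : ℕ} (p : Equiv.Perm (Fin (2 * r)) × Equiv.Perm (Fin (2 * q))) (i : Fin (2 * r)) :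
    a4p r q p (lo r q i) = lo r q (p.1 i) := by
  have h : lo r q i = a4e r q (Sum.inl i) := rfl
  rw [a4p, Equiv.permCongr_apply, h, Equiv.symm_apply_apply]
  rfl

lemma a4p_hi {r q : ℕ} (p : Equiv.Perm (Fin (2 * r)) × Equiv.Perm (Fin (2 * q))) (i : Fin (2 * q)) :
    a4p r q p (hi r q i) = hi r q (p.2 i) := by
  have h : hi r q i = a4e r q (Sum.inr i) := rfl
  rw [a4p, Equiv.permCongr_apply, h, Equiv.symm_apply_apply]
  rfl

lemma a4p_sign {r q : ℕ} (p : Equiv.Perm (Fin (2 * r)) × Equiv.Perm (Fin (2 * q))) :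
    Equiv.Perm.sign (a4p r q p) = Equiv.Perm.sign p.1 * Equiv.Perm.sign p.2 := by
  rw [a4p, Equiv.Perm.sign_permCongr, Equiv.Perm.sign_sumCongr]

lemma a4p_inj {r q : ℕ} : Function.Injective (a4p r q) := by
  intro p p' h
  have h1 := (a4e r q).permCongr.injective h
  exact Equiv.Perm.sumCongrHom_injective h1

lemma a4p_range {r q : ℕ} (σ : Equiv.Perm (Fin (2 * (r + q)))) (h : ∀ i : Fin (2 * r), (σ (lo r q i)).1 < 2 * r) :
    ∃ p, a4p r q p = σ := by
  have h1 : (a4e r q).permCongr.symm σ ∈ (Equiv.Perm.sumCongrHom (Fin (2 * r)) (Fin (2 * q))).range := by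
    apply Equiv.Perm.mem_sumCongrHom_range_of_perm_mapsTo_inl
    rintro _ ⟨i, rfl⟩
    have h2 := h i
    refine ⟨⟨(σ (lo r q i)).1, h2⟩, ?_⟩
    apply (a4e r q).injective
    have h3 : a4e r q ((a4e r q).permCongr.symm σ (Sum.inl i)) = σ (lo r q i) := by
      change a4e r q ((a4e r q).symm (σ (a4e r q (Sum.inl i)))) = _
      rw [Equiv.apply_symm_apply]
      rfl
    rw [h3]
    rfl
  obtain ⟨p, hp⟩ := h1
  refine ⟨p, ?_⟩
  rw [a4p]
  have h4 : (Equiv.Perm.sumCongr p.1 p.2) = (a4e r q).permCongr.symm σ := hp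
  rw [h4, Equiv.apply_symm_apply]

lemma a4_sum {r q : ℕ} (g : Equiv.Perm (Fin (2 * (r + q))) → ℝ)
    (hg : ∀ σ, g σ ≠ 0 → ∀ i : Fin (2 * r), (σ (lo r q i)).1 < 2 * r) :
    ∑ σ, g σ = ∑ p : Equiv.Perm (Fin (2 * r)) × Equiv.Perm (Fin (2 * q)), g (a4p r q p) := by
  symm
  refine Finset.sum_of_injOn (a4p r q) a4p_inj.injOn (fun _ _ => Finset.mem_coe.2 (Finset.mem_univ _)) ?_ (fun _ _ => rfl)
  intro σ _ hσ
  by_contra hne
  obtain ⟨p, hp⟩ := a4p_range σ (hg σ hne)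
  exact hσ ⟨p, Finset.mem_coe.2 (Finset.mem_univ _), hp⟩

lemma a4_fst_lo {r q : ℕ} (i : Fin r) : fst (Fin.castAdd q i) = lo r q (fst i) := rfl

lemma a4_snd_lo {r q : ℕ} (i : Fin r) : snd (Fin.castAdd q i) = lo r q (snd i) := rfl

lemma a4_fst_hi {r q : ℕ} (j : Fin q) : fst (Fin.natAdd r j) = hi r q (fst j) := by
  apply Fin.ext
  simp only [fst, hi, Fin.val_natAdd]
  ring

lemma a4_snd_hi {r q : ℕ} (j : Fin q) : snd (Fin.natAdd r j) = hi r q (snd j) := by
  apply Fin.ext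
  simp only [snd, hi, Fin.val_natAdd]
  ring

theorem A4 {r q : ℕ} (T : Fin (r + q) → Arr (2 * (r + q))) (h1 : ∀ (i : Fin r) (a b c d : Fin (2 * (r + q))), T (Fin.castAdd q i) a b c d ≠ 0 → a.1 < 2 * r ∧ b.1 < 2 * r ∧ c.1 < 2 * r ∧ d.1 < 2 * r)
    (h2 : ∀ (j : Fin q) (a b c d : Fin (2 * (r + q))), T (Fin.natAdd r j) a b c d ≠ 0 → 2 * r ≤ a.1 ∧ 2 * r ≤ b.1 ∧ 2 * r ≤ c.1 ∧ 2 * r ≤ d.1) :
    mgb T = mgb (fun i => rs (lo r q) (T (Fin.castAdd q i))) * mgb (fun j => rs (hi r q) (T (Fin.natAdd r j))) := by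
  have hterm : ∀ σ τ : Equiv.Perm (Fin (2 * (r + q))),
      ((Equiv.Perm.sign σ : ℤ) : ℝ) * ((Equiv.Perm.sign τ : ℤ) : ℝ) *
        ∏ i : Fin (r + q), T i (σ (fst i)) (σ (snd i)) (τ (fst i)) (τ (snd i)) ≠ 0 →
      (∀ i : Fin (2 * r), (σ (lo r q i)).1 < 2 * r) ∧ (∀ i : Fin (2 * r), (τ (lo r q i)).1 < 2 * r) := by
    intro σ τ h
    have h3 := right_ne_zero_of_mul h
    rw [Finset.prod_ne_zero_iff] at h3
    constructor
    · intro i
      obtain ⟨j, hj | hj⟩ := exists_fst_or_snd (n := r) i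
      · have h4 := h1 j _ _ _ _ (h3 (Fin.castAdd q j) (Finset.mem_univ _))
        rw [hj, ← a4_fst_lo]
        exact h4.1
      · have h4 := h1 j _ _ _ _ (h3 (Fin.castAdd q j) (Finset.mem_univ _))
        rw [hj, ← a4_snd_lo]
        exact h4.2.1
    · intro i
      obtain ⟨j, hj | hj⟩ := exists_fst_or_snd (n := r) i
      · have h4 := h1 j _ _ _ _ (h3 (Fin.castAdd q j) (Finset.mem_univ _))
        rw [hj, ← a4_fst_lo]
        exact h4.2.2.1
      · have h4 := h1 j _ _ _ _ (h3 (Fin.castAdd q j) (Finset.mem_univ _))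
        rw [hj, ← a4_snd_lo]
        exact h4.2.2.2
  unfold mgb
  rw [a4_sum]
  · have h5 : ∀ p : Equiv.Perm (Fin (2 * r)) × Equiv.Perm (Fin (2 * q)),
        ∑ τ : Equiv.Perm (Fin (2 * (r + q))), ((Equiv.Perm.sign (a4p r q p) : ℤ) : ℝ) * ((Equiv.Perm.sign τ : ℤ) : ℝ) *
          ∏ i : Fin (r + q), T i (a4p r q p (fst i)) (a4p r q p (snd i)) (τ (fst i)) (τ (snd i)) =
        ∑ p' : Equiv.Perm (Fin (2 * r)) × Equiv.Perm (Fin (2 * q)),
          (((Equiv.Perm.sign p.1 : ℤ) : ℝ) * ((Equiv.Perm.sign p'.1 : ℤ) : ℝ) *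
            ∏ i : Fin r, rs (lo r q) (T (Fin.castAdd q i)) (p.1 (fst i)) (p.1 (snd i)) (p'.1 (fst i)) (p'.1 (snd i))) *
          (((Equiv.Perm.sign p.2 : ℤ) : ℝ) * ((Equiv.Perm.sign p'.2 : ℤ) : ℝ) *
            ∏ i : Fin q, rs (hi r q) (T (Fin.natAdd r i)) (p.2 (fst i)) (p.2 (snd i)) (p'.2 (fst i)) (p'.2 (snd i))) := by
      intro p
      rw [a4_sum]
      · refine Finset.sum_congr rfl fun p' _ => ?_
        rw [a4p_sign, a4p_sign, Fin.prod_univ_add]
        simp only [a4_fst_lo, a4_snd_lo, a4_fst_hi, a4_snd_hi, a4p_lo, a4p_hi, rs]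
        push_cast
        ring
      · intro τ hτ
        exact (hterm _ τ hτ).2
    simp only [h5]
    simp only [Fintype.sum_prod_type]
    rw [Finset.sum_mul_sum]
    refine Finset.sum_congr rfl fun σ₁ _ => Finset.sum_congr rfl fun σ₂ _ => ?_
    rw [Finset.sum_mul_sum]
  · intro σ hσ
    obtain ⟨τ, _, hτ⟩ := Finset.exists_ne_zero_of_sum_ne_zero hσ
    exact (hterm σ τ hτ).1

end H56E
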