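import Pool.Agent.Lib.H56E.Defs
import Pool.Agent.Lib.H69.Hopf.Sym
import Pool.Agent.Lib.H56C.L7

/-!
# A9 (M): positive semidefinite forms in one class

`A9`: `Q` symmetric, positive semidefinite, supported in one class `b`: `Q i j = ∑ r, w r i * w r j` (square root of a positive semidefinite matrix, see the end of the proof of `H56C.L7`, or `Matrix.posSemidef_iff_eq_conjTranspose_mul_self`);
`w r j = 0` for `s j ≠ b` because `Q j j = ∑ r, (w r j) ^ 2 = 0`. `kna a Q = ∑ r, sqf (ei a) (w r)`.
-/

set_option autoImplicit false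

open Finset

namespace H56E

open Pool.Agent.H69Hopf

theorem A9_ite {N : ℕ} (c : Prop) [Decidable c] (f : Fin N → ℝ) : (∑ r, if c then f r else 0) = if c then ∑ r, f r else 0 := by
  split_ifs
  · rfl
  · exact Finset.sum_const_zero

theorem A9_key {N : ℕ} (a : Fin N) (w : Fin N → ℝ) (i j k l : Fin N) :
    sqf (ei a) w i j k l = (if i = a ∧ k = a then w j * w l else 0) + (if j = a ∧ l = a then w i * w k else 0) - (if i = a ∧ l = a then w j * w k else 0) -
      (if j = a ∧ k = a then w i * w l else 0) := by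
  unfold sqf ei
  simp only [Pi.single_apply]
  by_cases hi : i = a <;> by_cases hj : j = a <;> by_cases hk : k = a <;> by_cases hl : l = a <;> simp [hi, hj, hk, hl]

theorem A9 {N : ℕ} {s : Fin N → ℕ} (B : ℕ → Arr N) {b : ℕ} (a : Fin N) {Q : Fin N → Fin N → ℝ} (hs : ∀ i j, Q i j = Q j i) (hb : ∀ i j, Q i j ≠ 0 → s i = b ∧ s j = b)
    (hp : ∀ x : Fin N → ℝ, 0 ≤ ∑ i, ∑ j, Q i j * (x i * x j)) : kna a Q ∈ AddSubmonoid.closure (GenS s B) := by
  classical
  obtain ⟨H, hH⟩ : ∃ H : Matrix (Fin N) (Fin N) ℝ, ∀ j l, H j l = Q j l := ⟨Q, fun _ _ => rfl⟩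
  have hpsd : H.PosSemidef := by
    refine Matrix.PosSemidef.of_dotProduct_mulVec_nonneg ?_ ?_
    · ext j l
      rw [Matrix.conjTranspose_apply, star_trivial, hH, hH]
      exact hs l j
    · intro x
      have h1 : star x ⬝ᵥ (H.mulVec x) = ∑ j, ∑ l, Q j l * (x j * x l) := by
        unfold dotProduct Matrix.mulVec dotProduct
        refine Finset.sum_congr rfl fun j _ => ?_
        rw [Finset.mul_sum]
        refine Finset.sum_congr rfl fun l _ => ?_
        rw [Pi.star_apply, star_trivial]
        show x j * (H j l * x l) = Q j l * (x j * x l)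
        rw [hH]
        ring
      rw [h1]
      exact hp x
  obtain ⟨w, hw'⟩ := H30K.p11a_fac hpsd
  have hw : ∀ j l, Q j l = ∑ r, w r j * w r l := fun j l => (hH j l).symm.trans (hw' j l)
  have hw0 : ∀ r j, w r j ≠ 0 → s j = b := by
    intro r j hrj
    by_contra hj
    have h0 : Q j j = 0 := by
      by_contra h
      exact hj (hb j j h).1
    have h1 := hw j j
    rw [h0] at h1
    have h2 := (Finset.sum_eq_zero_iff_of_nonneg (fun i _ => mul_self_nonneg (w i j))).1 h1.symm r (Finset.mem_univ _)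
    exact hrj (mul_self_eq_zero.1 h2)
  have hk : kna a Q = ∑ r, sqf (ei a) (w r) := by
    funext i j k l
    have h1 : (∑ r, sqf (ei a) (w r)) i j k l = ∑ r, sqf (ei a) (w r) i j k l := by
      simp only [Finset.sum_apply]
    rw [h1, Finset.sum_congr rfl fun r _ => A9_key a (w r) i j k l, Finset.sum_sub_distrib, Finset.sum_sub_distrib, Finset.sum_add_distrib, A9_ite, A9_ite, A9_ite, A9_ite]
    unfold kna
    rw [hw j l, hw i k, hw j k, hw i l]
  rw [hk]
  refine sum_mem fun r _ => AddSubmonoid.subset_closure (Or.inr ⟨ei a, w r, ?_, ?_, rfl⟩)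
  · intro i j hi hj
    have h1 : i = a := by
      by_contra h
      exact hi (Pi.single_eq_of_ne h 1)
    have h2 : j = a := by
      by_contra h
      exact hj (Pi.single_eq_of_ne h 1)
    rw [h1, h2]
  · intro i j hi hj
    rw [hw0 r i hi, hw0 r j hj]

end H56E
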