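import Pool.Agent.Lib.H56D.PT

/-!
# H56E: clusters of classes, warped between different clusters (see `PROOF.md`)

`s : Fin N → ℕ` = the class of an index, `t : Fin N → ℕ` = the cluster of an index (a cluster is a union of classes: `Ref s t`).
-/

set_option autoImplicit false

open Finset

namespace H56E

open Pool.Agent.H69Hopf
open H30K (KB Cyc)

/-- the number of the indices of the class of `i` -/
def cln {N : ℕ} (s : Fin N → ℕ) (i : Fin N) : ℕ := (Finset.univ.filter fun j => s j = s i).card

/-- The cluster `a` is admissible: (1) at most one of its classes has more than one index, and it has at most five, or (2) its classes have at most three indices, at most one of them has three, and at most nine indices of the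
cluster are in classes with more than one index, or (3) its classes have at most five indices, and at most six indices of the cluster are in classes with more than one index. -/
def AdmIn {N : ℕ} (s t : Fin N → ℕ) (a : ℕ) : Prop :=
  ((∀ i j, t i = a → t j = a → 2 ≤ cln s i → 2 ≤ cln s j → s i = s j) ∧ ∀ i, t i = a → cln s i ≤ 5) ∨
    ((∀ i, t i = a → cln s i ≤ 3) ∧ (∀ i j, t i = a → t j = a → cln s i = 3 → cln s j = 3 → s i = s j) ∧ (Finset.univ.filter fun i => t i = a ∧ 2 ≤ cln s i).card ≤ 9) ∨
    ((∀ i, t i = a → cln s i ≤ 5) ∧ (Finset.univ.filter fun i => t i = a ∧ 2 ≤ cln s i).card ≤ 6)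

/-- Curvature tensors of cluster type: `s`, `t` = classes and clusters of the indices of an orthonormal basis; a component `R i j k l` is nonzero only if the classes of `i`, `j` are those of `k`, `l` in some order; for `i`, `j` in
different clusters `R i j k l = δ_ik P(j, l) + δ_jl P'(i, k)` (`i`, `k` in one class, `j`, `l` in one class, `P`, `P'` depend only on the class of `i`, respectively `j`); the clusters are admissible. -/
def Clus {N : ℕ} (R : Arr N) : Prop :=
  ∃ (s t : Fin N → ℕ) (P : ℕ → Fin N → Fin N → ℝ), (∀ i j, s i = s j → t i = t j) ∧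
    (∀ i j k l, R i j k l ≠ 0 → (s i = s k ∧ s j = s l) ∨ (s i = s l ∧ s j = s k)) ∧
    (∀ i j k l, t i ≠ t j → s i = s k → s j = s l → R i j k l = (if i = k then P (s i) j l else 0) + (if j = l then P (s j) i k else 0)) ∧
    ∀ a, AdmIn s t a

/-- clusters are unions of classes -/
def Ref {N : ℕ} (s t : Fin N → ℕ) : Prop := ∀ i j, s i = s j → t i = t j

/-- `w` is supported in one class -/
def Cls {N : ℕ} (s : Fin N → ℕ) (w : Fin N → ℝ) : Prop := ∀ i j, w i ≠ 0 → w j ≠ 0 → s i = s j

/-- the square of the simple two-form `u ∧ v` -/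
def sqf {N : ℕ} (u v : Fin N → ℝ) : Arr N := fun i j k l => (u i * v j - u j * v i) * (u k * v l - u l * v k)

/-- the array with the indices `f i` -/
def rs {M N : ℕ} (f : Fin M → Fin N) (R : Arr N) : Arr M := fun i j k l => R (f i) (f j) (f k) (f l)

/-- the vector of the standard basis -/
def ei {N : ℕ} (i : Fin N) : Fin N → ℝ := Pi.single i 1

/-- the array `T` is supported in the cluster `a` -/
def InC {N : ℕ} (t : Fin N → ℕ) (a : ℕ) (T : Arr N) : Prop := ∀ i j k l, T i j k l ≠ 0 → t i = a ∧ t j = a ∧ t k = a ∧ t l = a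

/-- the part of `R` in the cluster `a` -/
def blk {N : ℕ} (t : Fin N → ℕ) (a : ℕ) (R : Arr N) : Arr N := fun i j k l => if t i = a ∧ t j = a ∧ t k = a ∧ t l = a then R i j k l else 0

/-- the array `B a` is supported in the cluster `a` and its Gauss-Bonnet integrand is `≥ 0` on all subspaces of the cluster spanned by orthonormal vectors supported in classes -/
structure Pos {N : ℕ} (s t : Fin N → ℕ) (B : ℕ → Arr N) : Prop where
  sup : ∀ a, InC t a (B a)
  pos : ∀ (a r : ℕ) (v : Fin (2 * r) → (Fin N → ℝ)), ONF v → (∀ k, Cls s (v k)) → (∀ k i, v k i ≠ 0 → t i = a) → 0 ≤ gaussBonnet r (pull v (B a))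

/-- the arrays `B a` and the squares of the simple two-forms `u ∧ v`, `u`, `v` supported in classes -/
def GenS {N : ℕ} (s : Fin N → ℕ) (B : ℕ → Arr N) : Set (Arr N) := {T | (∃ a, T = B a) ∨ ∃ u v, Cls s u ∧ Cls s v ∧ T = sqf u v}

/-- `(e_a ⊗ e_a) ∧ Q` -/
def kna {N : ℕ} (a : Fin N) (Q : Fin N → Fin N → ℝ) : Arr N := fun i j k l =>
  (if i = a ∧ k = a then Q j l else 0) + (if j = a ∧ l = a then Q i k else 0) - (if i = a ∧ l = a then Q j k else 0) - (if j = a ∧ k = a then Q i l else 0)

end H56E
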