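import Pool.Agent.Lib.H56E.K2
import Pool.Agent.Lib.H56D.Main

/-!
# H56E, Geo: closed manifolds with curvature tensors of cluster type on a dense set
-/

set_option autoImplicit false

open scoped ContDiff Topology Manifold
open Set

namespace H56E

open H31R H79G H60E H30K H56C
open Pool.Agent.H69Hopf (Arr IsAlgCurv ev area2)

theorem GE_pt {k n : ℕ} {U : Set (EE (2 * n))} {G : EE (2 * n) → Mt (2 * n)} (h : MetOn U G) {c : ℝ} (hc0 : 0 ≤ c)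
    (hK : ∀ y ∈ U, ∀ E : Mt (2 * n), E.transpose * G y * E = 1 → KB (N := 2 * n) c (frR (riem G y) E)) {y : EE (2 * n)} (hy : y ∈ U)
    (hA : ClusAt k c (G y) (riem G y)) : c ^ n ≤ (-1) ^ n * pfn G y := by
  obtain ⟨E, hE, hC⟩ := hA
  have hA1 : IsAlgCurv (N := 2 * n) (riem G y) := riem_algCurv h hy
  have hA2 : IsAlgCurv (N := 2 * n) (frR (riem G y) E) := frR_algCurv hA1 E
  have h1 := PTK (k := k) (n := n) hA2 (h := c) hC hc0 (hK y hy E hE)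
  have h4 : (0 : ℝ) < 4 ^ n * n.factorial := by positivity
  rw [GA_pf h hy hE, ← mul_div_assoc, le_div_iff₀ h4, mul_comm]
  exact h1

theorem GE_loc {k n : ℕ} {U : Set (EE (2 * n))} {G : EE (2 * n) → Mt (2 * n)} (h : MetOn U G) {c : ℝ} (hc0 : 0 ≤ c)
    (hK : ∀ y ∈ U, ∀ E : Mt (2 * n), E.transpose * G y * E = 1 → KB (N := 2 * n) c (frR (riem G y) E)) (hU : U.Nonempty)
    (hA : (∃ y ∈ U, ClusAt k c (G y) (riem G y)) ∨ ∃ b : EE (2 * n) → Mt (2 * n), IsCodazzi G U b ∧ ((∃ y ∈ U, H56D.AdmAt (G y) (b y)) ∨ ∀ y ∈ U, TwoAt (G y) (b y))) :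
    ∃ y ∈ U, c ^ n ≤ (-1) ^ n * pfn G y := by
  rcases hA with ⟨y, hy, hAy⟩ | ⟨b, hb, hA⟩
  · exact ⟨y, hy, GE_pt h hc0 hK hy hAy⟩
  · exact H56D.GA_loc (A := H56D.AC) (H56D.PT n) (fun _ h => H56D.adm_three h) h hb hc0 hK hU hA

theorem GE_dense {k n : ℕ} {M : Type} [TopologicalSpace M] [ChartedSpace (EE (2 * n)) M] {g : Ch.Metric (2 * n) M} (p : M)
    {W : Set (EE (2 * n))} (hW : IsOpen W) (hWt : W ⊆ (chartAt (EE (2 * n)) p).target) {c : ℝ} (hc0 : 0 ≤ c) (hD : DenseClus k c g p W)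
    (hK : ∀ y ∈ W, ∀ E : Mt (2 * n), E.transpose * g.mat p y * E = 1 → KB (N := 2 * n) c (frR (riem (g.mat p) y) E))
    {y : EE (2 * n)} (hy : y ∈ W) : c ^ n ≤ (-1) ^ n * pfn (g.mat p) y := by
  have hM : MetOn W (g.mat p) := gc_mono (metOn g p) hW hWt
  have hcl : y ∈ closure {z | z ∈ W ∧ c ^ n ≤ (-1) ^ n * pfn (g.mat p) z} := by
    rw [mem_closure_iff]
    intro O hO hyO
    obtain ⟨U, hUV, hU, hUne, hA⟩ := hD (O ∩ W) (fun z hz => hz.2) (hO.inter hW) ⟨y, hyO, hy⟩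
    have hUW : U ⊆ W := fun z hz => (hUV hz).2
    obtain ⟨z, hz, hzc⟩ := GE_loc (gc_mono hM hU hUW) hc0 (fun w hw => hK w (hUW hw)) hUne hA
    exact ⟨z, (hUV hz).1, hUW hz, hzc⟩
  have h1 : ContinuousWithinAt (fun z => (-1) ^ n * pfn (g.mat p) z) {z | z ∈ W ∧ c ^ n ≤ (-1) ^ n * pfn (g.mat p) z} y :=
    ((GA_cont hM y hy).mono fun z hz => hz.1).const_mul _
  exact continuousWithinAt_const.closure_le hcl h1 fun z hz => hz.2

theorem ClusAt_mono {k d : ℕ} {h h' : ℝ} (hh : h' ≤ h) {G : Mt d} {R : Cu d} (hC : ClusAt k h G R) : ClusAt k h' G R := by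
  obtain ⟨E, hE, hC⟩ := hC
  exact ⟨E, hE, ClusK_mono hh hC⟩

theorem ClusAt_zero {d : ℕ} {h : ℝ} (h' : ℝ) {G : Mt d} {R : Cu d} (hC : ClusAt 0 h G R) : ClusAt 0 h' G R := by
  obtain ⟨E, hE, hC⟩ := hC
  exact ⟨E, hE, ClusK_zero h' hC⟩

theorem DenseClus_imp {k k' d : ℕ} {h h' : ℝ} {M : Type} [TopologicalSpace M] [ChartedSpace (EE d) M] {g : Ch.Metric d M} {p : M} {W W' : Set (EE d)} (hW : W' ⊆ W)
    (himp : ∀ (G : Mt d) (R : Cu d), ClusAt k h G R → ClusAt k' h' G R) (hD : DenseClus k h g p W) : DenseClus k' h' g p W' := by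
  intro V hV hVo hVn
  obtain ⟨U, h1, h2, h3, h4⟩ := hD V (hV.trans hW) hVo hVn
  exact ⟨U, h1, h2, h3, h4.imp_left fun ⟨y, hy, hC⟩ => ⟨y, hy, himp _ _ hC⟩⟩

theorem GE_main {k n : ℕ} (hn : 1 ≤ n) (M : Closed (2 * n)) (g : Ch.Metric (2 * n) M.carrier) (hK : SecNonpos g)
    (hD : ∀ p : M.carrier, DenseClus k 0 g p (chartAt (EE (2 * n)) p).target) :
    ∃ χ : ℤ, IsEulerCharacteristic (2 * n) M.carrier χ ∧ 0 ≤ (-1) ^ n * χ ∧
      ((∃ m : M.carrier, NegAt g m ∧ (k = 0 ∨ ∃ W : Set (EE (2 * n)), IsOpen W ∧ chartAt (EE (2 * n)) m m ∈ W ∧ ∃ h : ℝ, 0 < h ∧ DenseClus k h g m (W ∩ (chartAt (EE (2 * n)) m).target))) →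
        0 < (-1) ^ n * χ) := by
  have hK4 : (0 : ℝ) < 4 ^ n * n.factorial := by positivity
  have hpt : ∀ p : M.carrier, ∀ y ∈ (chartAt (EE (2 * n)) p).target, ∀ E : Mt (2 * n),
      E.transpose * g.mat p y * E = 1 →
      0 ≤ ((-1) ^ n : ℝ) * Pool.Agent.H69Hopf.gaussBonnet n (frameR (riem (g.mat p) y) E) := by
    intro p y hy E hE
    have h1 := GE_dense p (chartAt (EE (2 * n)) p).open_target subset_rfl le_rfl (hD p)
      (fun z hz E _ => GB_nonpos hK p hz E) hy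
    rw [GA_pf (metOn g p) hy hE, ← mul_div_assoc, le_div_iff₀ hK4, zero_pow (by omega), zero_mul] at h1
    exact h1
  obtain ⟨χ, h1, h2, h3⟩ := sign_principle n M g ((-1) ^ n) hpt
  refine ⟨χ, h1, ?_, ?_⟩
  · exact_mod_cast h2
  · rintro ⟨m, hm, hm2⟩
    have h4 : 0 < ((-1) ^ n : ℝ) * χ := by
      refine h3 ⟨m, fun E hE => ?_⟩
      obtain ⟨c, hc, W, hWt, hW, hmW, hKW⟩ :=
        GB_neg (by omega) (metOn g m) (mem_chart_target (EE (2 * n)) m) hm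
      obtain ⟨c', hc', W', hWt', hW', hmW', hKW', hDW⟩ : ∃ c' : ℝ, 0 < c' ∧ ∃ W' : Set (EE (2 * n)), W' ⊆ (chartAt (EE (2 * n)) m).target ∧ IsOpen W' ∧ chartAt (EE (2 * n)) m m ∈ W' ∧
          (∀ y ∈ W', ∀ E : Mt (2 * n), E.transpose * g.mat m y * E = 1 → KB (N := 2 * n) c' (frR (riem (g.mat m) y) E)) ∧ DenseClus k c' g m W' := by
        rcases hm2 with rfl | ⟨W2, hW2, hmW2, h, hh, hD2⟩
        · exact ⟨c, hc, W, hWt, hW, hmW, hKW, DenseClus_imp hWt (fun _ _ => ClusAt_zero c) (hD m)⟩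
        · refine ⟨min c h, lt_min hc hh, W ∩ W2, fun z hz => hWt hz.1, hW.inter hW2, ⟨hmW, hmW2⟩, fun y hy E hE v w => ?_,
            DenseClus_imp (W := W2 ∩ (chartAt (EE (2 * n)) m).target) (fun z hz => ⟨hz.2, hWt hz.1⟩) (fun _ _ => ClusAt_mono (min_le_right c h)) hD2⟩
          have h5 := hKW y hy.1 E hE v w
          have h6 := Pool.Agent.H69Hopf.area2_nonneg v w
          have h7 : min c h * area2 v w ≤ c * area2 v w := mul_le_mul_of_nonneg_right (min_le_left c h) h6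
          linarith
      have h5 := GE_dense m hW' hWt' hc'.le hDW hKW' hmW'
      rw [GA_pf (metOn g m) (mem_chart_target (EE (2 * n)) m) hE, ← mul_div_assoc, le_div_iff₀ hK4] at h5
      have h6 : 0 < c' ^ n * (4 ^ n * n.factorial) := mul_pos (pow_pos hc' n) hK4
      exact lt_of_lt_of_le h6 h5
    exact_mod_cast h4

end H56E
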