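import Pool.Agent.Lib.H56E.Stmt
import Pool.Agent.Lib.H56E.A12
import Pool.Agent.Lib.H56E.A13
import Pool.Agent.Lib.H2K.KC6

/-!
# K1: clusters with nonpositive curvature on complex two-vectors; the pointwise theorem for `ClusK`
-/

set_option autoImplicit false

open Finset

namespace H56E

open Pool.Agent.H69Hopf
open H30K (KB Cyc)
open H2K (complexCurvK)

theorem k1_lin {I A : Type} [Fintype I] [Fintype A] (R : A → A → ℂ) (V : I → A → ℂ) (Z Y : I → ℂ) :
    ∑ i, ∑ p, (∑ a, ∑ c, R a c * V i a * V p c) * Z i * Y p = ∑ a, ∑ c, R a c * (∑ i, Z i * V i a) * (∑ p, Y p * V p c) := by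
  have h1 : ∀ i p, (∑ a, ∑ c, R a c * V i a * V p c) * Z i * Y p = ∑ u : A × A, R u.1 u.2 * (Z i * V i u.1) * (Y p * V p u.2) := by
    intro i p
    rw [Fintype.sum_prod_type, Finset.sum_mul, Finset.sum_mul]
    refine Finset.sum_congr rfl fun a _ => ?_
    rw [Finset.sum_mul, Finset.sum_mul]
    exact Finset.sum_congr rfl fun c _ => by ring
  have h2 : ∀ a c, R a c * (∑ i, Z i * V i a) * (∑ p, Y p * V p c) = ∑ u : I × I, R a c * (Z u.1 * V u.1 a) * (Y u.2 * V u.2 c) := by
    intro a c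
    rw [Fintype.sum_prod_type, mul_assoc, Finset.sum_mul_sum, Finset.mul_sum]
    refine Finset.sum_congr rfl fun i _ => ?_
    rw [Finset.mul_sum]
    exact Finset.sum_congr rfl fun p _ => by ring
  rw [Finset.sum_congr rfl fun i _ => Finset.sum_congr rfl fun p _ => h1 i p,
    Finset.sum_congr rfl fun a _ => Finset.sum_congr rfl fun c _ => h2 a c]
  rw [← Fintype.sum_prod_type' (f := fun i p => ∑ u : A × A, R u.1 u.2 * (Z i * V i u.1) * (Y p * V p u.2)),
    ← Fintype.sum_prod_type' (f := fun a c => ∑ u : I × I, R a c * (Z u.1 * V u.1 a) * (Y u.2 * V u.2 c))]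
  exact Finset.sum_comm

/-- the two-vector of the pushed vectors -/
theorem k1_push {k M N : ℕ} (v : Fin M → (Fin N → ℝ)) (z w : Fin k → Fin M → ℂ) (a b : Fin N) :
    ∑ l, (∑ i, z l i * (v i a : ℂ)) * (∑ j, w l j * (v j b : ℂ)) = ∑ u : Fin M × Fin M, (∑ l, z l u.1 * w l u.2) * ((v u.1 a : ℂ) * (v u.2 b : ℂ)) := by
  have h1 : ∀ l, (∑ i, z l i * (v i a : ℂ)) * (∑ j, w l j * (v j b : ℂ)) = ∑ i, ∑ j, z l i * w l j * ((v i a : ℂ) * (v j b : ℂ)) := by
    intro l
    rw [Finset.sum_mul_sum]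
    exact Finset.sum_congr rfl fun i _ => Finset.sum_congr rfl fun j _ => by ring
  rw [Finset.sum_congr rfl fun l _ => h1 l, Finset.sum_comm, Fintype.sum_prod_type]
  refine Finset.sum_congr rfl fun i _ => ?_
  rw [Finset.sum_comm]
  exact Finset.sum_congr rfl fun j _ => by rw [Finset.sum_mul]

theorem k1_pull {k M N : ℕ} (v : Fin M → (Fin N → ℝ)) (R : Arr N) (z w : Fin k → Fin M → ℂ) :
    complexCurvK (pull v R) z w = complexCurvK R (fun l a => ∑ i, z l i * (v i a : ℂ)) (fun l a => ∑ i, w l i * (v i a : ℂ)) := by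
  have h := k1_lin (I := Fin M × Fin M) (A := Fin N × Fin N) (fun a c => (R a.1 a.2 c.1 c.2 : ℂ)) (fun i a => (v i.1 a.1 : ℂ) * (v i.2 a.2 : ℂ))
    (fun i => ∑ l, z l i.1 * w l i.2) (fun p => (starRingEnd ℂ) (∑ l, z l p.1 * w l p.2))
  unfold complexCurvK
  refine congrArg Complex.re ?_
  have e1 : ∑ i, ∑ j, ∑ p, ∑ q, (pull v R i j p q : ℂ) * (∑ l, z l i * w l j) * (starRingEnd ℂ) (∑ l, z l p * w l q) =
      ∑ i : Fin M × Fin M, ∑ p : Fin M × Fin M, (∑ a : Fin N × Fin N, ∑ c : Fin N × Fin N, (R a.1 a.2 c.1 c.2 : ℂ) * ((v i.1 a.1 : ℂ) * (v i.2 a.2 : ℂ)) * ((v p.1 c.1 : ℂ) * (v p.2 c.2 : ℂ))) *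
        (∑ l, z l i.1 * w l i.2) * (starRingEnd ℂ) (∑ l, z l p.1 * w l p.2) := by
    simp only [Fintype.sum_prod_type]
    refine Finset.sum_congr rfl fun i _ => Finset.sum_congr rfl fun j _ => Finset.sum_congr rfl fun p _ => Finset.sum_congr rfl fun q _ => ?_
    refine congrArg (fun x => x * _ * _) ?_
    unfold pull ev
    push_cast
    exact Finset.sum_congr rfl fun a _ => Finset.sum_congr rfl fun b _ => Finset.sum_congr rfl fun c _ => Finset.sum_congr rfl fun e _ => by ring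
  rw [e1, h]
  simp only [k1_push]
  rw [Fintype.sum_prod_type]
  refine Finset.sum_congr rfl fun a _ => Finset.sum_congr rfl fun b _ => ?_
  rw [Fintype.sum_prod_type]
  refine Finset.sum_congr rfl fun c _ => Finset.sum_congr rfl fun e _ => ?_
  refine congrArg₂ (fun x y => (R a b c e : ℂ) * x * y) rfl ?_
  rw [map_sum]
  refine Finset.sum_congr rfl fun p _ => ?_
  rw [map_mul, map_mul, Complex.conj_ofReal, Complex.conj_ofReal]

theorem k1_idA {k N : ℕ} (z w : Fin k → Fin N → ℂ) : 0 ≤ complexCurvK (idA N) z w := by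
  obtain ⟨Z, hZ⟩ : ∃ Z : Fin N → Fin N → ℂ, ∀ i j, Z i j = ∑ l, z l i * w l j := ⟨_, fun _ _ => rfl⟩
  have h1 : complexCurvK (idA N) z w = ∑ i, ∑ j, ((Z i j * (starRingEnd ℂ) (Z i j)).re - (Z i j * (starRingEnd ℂ) (Z j i)).re) := by
    unfold complexCurvK
    rw [Complex.re_sum]
    refine Finset.sum_congr rfl fun i _ => ?_
    rw [Complex.re_sum]
    refine Finset.sum_congr rfl fun j _ => ?_
    rw [← Complex.sub_re]
    refine congrArg Complex.re ?_
    have h2 : ∀ p q, (idA N i j p q : ℂ) * (∑ l, z l i * w l j) * (starRingEnd ℂ) (∑ l, z l p * w l q) =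
        (if i = p then (if j = q then Z i j * (starRingEnd ℂ) (Z p q) else 0) else 0) -
        (if j = p then (if i = q then Z i j * (starRingEnd ℂ) (Z p q) else 0) else 0) := by
      intro p q
      rw [← hZ, ← hZ]
      unfold idA
      split_ifs <;> simp
    simp only [h2, Finset.sum_sub_distrib]
    congr 1
    · rw [Finset.sum_eq_single i (fun p _ hp => Finset.sum_eq_zero fun q _ => by rw [if_neg (Ne.symm hp)]) (fun h => absurd (Finset.mem_univ i) h),
        Finset.sum_eq_single j (fun q _ hq => by rw [if_pos rfl, if_neg (Ne.symm hq)]) (fun h => absurd (Finset.mem_univ j) h), if_pos rfl, if_pos rfl]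
    · rw [Finset.sum_eq_single j (fun p _ hp => Finset.sum_eq_zero fun q _ => by rw [if_neg (Ne.symm hp)]) (fun h => absurd (Finset.mem_univ j) h),
        Finset.sum_eq_single i (fun q _ hq => by rw [if_pos rfl, if_neg (Ne.symm hq)]) (fun h => absurd (Finset.mem_univ i) h), if_pos rfl, if_pos rfl]
  have h4 : complexCurvK (idA N) z w = ∑ i, ∑ j, ((Z j i * (starRingEnd ℂ) (Z j i)).re - (Z j i * (starRingEnd ℂ) (Z i j)).re) := h1.trans Finset.sum_comm
  have h3 : complexCurvK (idA N) z w + complexCurvK (idA N) z w = ∑ i, ∑ j, ((Z i j - Z j i) * (starRingEnd ℂ) (Z i j - Z j i)).re := by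
    refine (congrArg₂ (fun x y => x + y) h1 h4).trans ?_
    simp only [← Finset.sum_add_distrib]
    refine Finset.sum_congr rfl fun i _ => Finset.sum_congr rfl fun j _ => ?_
    rw [map_sub]
    simp only [Complex.mul_re, Complex.sub_re, Complex.sub_im, Complex.conj_re, Complex.conj_im]
    ring
  have h5 : 0 ≤ ∑ i, ∑ j, ((Z i j - Z j i) * (starRingEnd ℂ) (Z i j - Z j i)).re :=
    Finset.sum_nonneg fun i _ => Finset.sum_nonneg fun j _ => by
      rw [Complex.mul_conj]
      exact_mod_cast Complex.normSq_nonneg _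
  linarith

theorem k1_add {k N : ℕ} (A B : Arr N) (c : ℝ) (z w : Fin k → Fin N → ℂ) :
    complexCurvK (fun i j p q => A i j p q + c * B i j p q) z w = complexCurvK A z w + c * complexCurvK B z w := by
  unfold complexCurvK
  rw [← Complex.re_ofReal_mul, ← Complex.add_re]
  refine congrArg Complex.re ?_
  rw [Finset.mul_sum, ← Finset.sum_add_distrib]
  refine Finset.sum_congr rfl fun i _ => ?_
  rw [Finset.mul_sum, ← Finset.sum_add_distrib]
  refine Finset.sum_congr rfl fun j _ => ?_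
  rw [Finset.mul_sum, ← Finset.sum_add_distrib]
  refine Finset.sum_congr rfl fun p _ => ?_
  rw [Finset.mul_sum, ← Finset.sum_add_distrib]
  refine Finset.sum_congr rfl fun q _ => ?_
  rw [Complex.ofReal_add, Complex.ofReal_mul]
  ring

theorem CkIn_mono {k N : ℕ} {R : Arr N} {t : Fin N → ℕ} {a : ℕ} {h h' : ℝ} (hh : h' ≤ h) (hC : CkIn k h R t a) : CkIn k h' R t a := by
  refine ⟨hC.1, hC.2.1, fun z w hz => ?_⟩
  have h1 := hC.2.2 z w hz
  have h2 := k1_idA z w
  have h3 := k1_add R (idA N) h z w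
  have h4 := k1_add R (idA N) h' z w
  rw [h4]
  rw [h3] at h1
  have h5 : 0 ≤ (h - h') * complexCurvK (idA N) z w := mul_nonneg (sub_nonneg.2 hh) h2
  linarith

theorem ClusK_mono {k N : ℕ} {R : Arr N} {h h' : ℝ} (hh : h' ≤ h) (hC : ClusK k h R) : ClusK k h' R := by
  obtain ⟨s, t, P, h1, h2, h3, h4⟩ := hC
  exact ⟨s, t, P, h1, h2, h3, fun a => (h4 a).imp_right (CkIn_mono hh)⟩

/-- if `k = 0` the number `h` does not matter -/
theorem ClusK_zero {N : ℕ} {R : Arr N} {h : ℝ} (h' : ℝ) (hC : ClusK 0 h R) : ClusK 0 h' R := by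
  obtain ⟨s, t, P, h1, h2, h3, h4⟩ := hC
  refine ⟨s, t, P, h1, h2, h3, fun a => (h4 a).imp_right fun h5 => ?_⟩
  exact absurd h5.1 (by omega)

/-- the number of the vectors of an orthonormal family in the cluster `a` -/
theorem k1_card {M N : ℕ} {v : Fin M → (Fin N → ℝ)} (hv : ONF v) {t : Fin N → ℕ} {a : ℕ} (hs : ∀ k i, v k i ≠ 0 → t i = a) :
    M ≤ (Finset.univ.filter fun i => t i = a).card := by
  classical
  obtain ⟨f, hf, hfn⟩ := A12_inj hv
  have h1 : (Finset.univ.image f).card = M := by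
    rw [Finset.card_image_of_injective _ hf, Finset.card_univ, Fintype.card_fin]
  rw [← h1]
  apply Finset.card_le_card
  intro x hx
  obtain ⟨k, -, rfl⟩ := Finset.mem_image.1 hx
  exact Finset.mem_filter.2 ⟨Finset.mem_univ _, hs k _ (hfn k)⟩

theorem K1_pos {N : ℕ} {R : Arr N} (hR : IsAlgCurv R) {t : Fin N → ℕ} {k : ℕ} {h : ℝ} {a : ℕ} (hC : CkIn k h R t a)
    {r : ℕ} {v : Fin (2 * r) → (Fin N → ℝ)} (hv : ONF v) (hs : ∀ k i, v k i ≠ 0 → t i = a) : 0 ≤ gaussBonnet r (pull v (blk t a (xr h R))) := by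
  obtain ⟨hk, hcard, hCC⟩ := hC
  have hY := algCurv_sub_idA hR (-h)
  have hcd := k1_card hv hs
  rw [a12_pull R t a h v hs, A8_neg]
  refine (H2K.f1_point H2K.kc6_six r k hk (by omega) _ (H56C.L4_alg hY v) fun z w => ?_).1
  rw [k1_pull]
  have h1 := hCC (fun l a => ∑ i, z l i * (v i a : ℂ)) (fun l a => ∑ i, w l i * (v i a : ℂ)) (by
    intro l i hi
    have h0 : ∀ j, v j i = 0 := fun j => by
      by_contra hne
      exact hi (hs j i hne)
    constructor
    · exact Finset.sum_eq_zero fun j _ => by rw [h0 j, Complex.ofReal_zero, mul_zero]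
    · exact Finset.sum_eq_zero fun j _ => by rw [h0 j, Complex.ofReal_zero, mul_zero])
  have e : (fun i j p q => R i j p q - (-h) * idA N i j p q) = fun i j p q => R i j p q + h * idA N i j p q := by
    funext i j p q
    ring
  rw [e]
  exact h1

end H56E
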