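import Pool.Agent.Lib.H56E.K1

/-!
# K2: the pointwise theorem for curvature tensors of cluster type (`ClusK`)
-/

set_option autoImplicit false

open Finset

namespace H56E

open Pool.Agent.H69Hopf
open H30K (KB Cyc)

theorem K2_one {N : ℕ} {R : Arr N} (hR : IsAlgCurv R) {s t : Fin N → ℕ} (hT : ∀ i j k l, R i j k l ≠ 0 → (s i = s k ∧ s j = s l) ∨ (s i = s l ∧ s j = s k))
    {a : ℕ} (hA : AdmIn s t a) {h : ℝ} (hK : KB h R) {r : ℕ} {v : Fin (2 * r) → (Fin N → ℝ)} (hv : ONF v) (hcls : ∀ k, Cls s (v k)) (hsup : ∀ k i, v k i ≠ 0 → t i = a) :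
    0 ≤ gaussBonnet r (pull v (blk t a (xr h R))) := by
  have hY := algCurv_sub_idA hR (-h)
  have hYK : KB 0 (fun i j k l => R i j k l - (-h) * idA N i j k l) := by
    intro x y
    rw [ev_sub_idA]
    have h1 := hK x y
    linarith
  have hYc := A12_cyc hY (a12_type hT h)
  obtain ⟨f, hf, hfn⟩ := A12_inj hv
  have hPc := H56C.L4_cyc hYc (v := v) (f := f) (fun k j hkj => by
    show ((s j : ℕ) : ℝ) = ((s (f k) : ℕ) : ℝ)
    rw [hcls k j (f k) hkj (hfn k)])
  have hPA := A12_adm hA hf (fun k => hsup k (f k) (hfn k))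
  have h1 := H56D.PT r _ (H56C.L4_alg hY v) _ hPc hPA 0 le_rfl (H56C.L4_kb hYK hv)
  rw [a12_pull R t a h v hsup, A8_neg]
  refine le_trans ?_ h1
  positivity

theorem K2_pos {N : ℕ} {R : Arr N} (hR : IsAlgCurv R) {s t : Fin N → ℕ} (hT : ∀ i j k l, R i j k l ≠ 0 → (s i = s k ∧ s j = s l) ∨ (s i = s l ∧ s j = s k))
    {k : ℕ} {h : ℝ} (hK : KB h R) (hA : ∀ a, AdmIn s t a ∨ CkIn k h R t a) : Pos s t (fun a => blk t a (xr h R)) := by
  refine ⟨fun a i j k l hne => ?_, fun a r v hv hcls hsup => ?_⟩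
  · by_contra hc
    apply hne
    show blk t a (xr h R) i j k l = 0
    unfold blk
    rw [if_neg hc]
  · rcases hA a with h1 | h1
    · exact K2_one hR hT h1 hK hv hcls hsup
    · exact K1_pos hR h1 hv hsup

/-- **The pointwise theorem.** -/
theorem PTK {k n : ℕ} {R : Arr (2 * n)} (hR : IsAlgCurv R) {h : ℝ} (hC : ClusK k h R) (hh : 0 ≤ h) (hK : KB h R) :
    4 ^ n * (n.factorial : ℝ) * h ^ n ≤ (-1) ^ n * gaussBonnet n R := by
  obtain ⟨s, t, P, hr, hT, hP, hA⟩ := hC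
  have hpos := K2_pos hR hT hK hA
  have hS := A6 n s t _ hr hpos
  have hX := A11 hR (s := s) (t := t) hr hT hP hK
  have hY := A8_mem s (fun a => blk t a (xr h R)) hh
  have hm := A7_mono hS hX hY
  have h1 : xr h R + h • idA (2 * n) = fun i j k l => - R i j k l := by
    funext i j k l
    simp [xr]
  rw [h1, ← gaussBonnet_eq_mgb, ← gaussBonnet_eq_mgb, A8_neg] at hm
  exact (A8_gb n hh).trans hm

end H56E
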