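import Pool.Agent.Lib.H56E.Geo

/-!
# H56E, Main: the theorem (assembly)
-/

set_option autoImplicit false

open scoped ContDiff Topology Manifold
open Set

namespace H56E

open H31R H79G H60E H30K H56C

/-- the strict inequality: all sectional curvatures at some point `m` are negative and, if `k > 0`, the curvature tensor is of cluster type with some `h > 0` on a dense subset of a neighbourhood of `m` -/
def NegClus {d : ℕ} {M : Type} [TopologicalSpace M] [ChartedSpace (EE d) M] (k : ℕ) (g : Ch.Metric d M) (m : M) : Prop :=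
  NegAt g m ∧ (k = 0 ∨ ∃ W : Set (EE d), IsOpen W ∧ chartAt (EE d) m m ∈ W ∧ ∃ h : ℝ, 0 < h ∧ DenseClus k h g m (W ∩ (chartAt (EE d) m).target))

theorem main_clus {k n : ℕ} (hn : 1 ≤ n) (M : Closed (2 * n)) (g : Ch.Metric (2 * n) M.carrier) (hK : SecNonpos g)
    (h : (∀ p : M.carrier, DenseClus k 0 g p (chartAt (EE (2 * n)) p).target) ∨
      (n = 3 ∧ ((∃ lam, IsEinstein g lam) ∨ (ConnectedSpace M.carrier ∧ HarmonicCurvature g) ∨ DenseCodazzi g ∨ (HarmonicWeyl g ∧ NowhereEinstein g)))) :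
    ∃ χ : ℤ, IsEulerCharacteristic (2 * n) M.carrier χ ∧ 0 ≤ (-1) ^ n * χ ∧ ((∃ m : M.carrier, NegClus k g m) → 0 < (-1) ^ n * χ) ∧
      (n = 3 → ∀ lam, IsEinstein g lam → χ = 0 → ∀ m : M.carrier, ∃ e : Fin (2 * n) → Fin (2 * n) → ℝ,
        (∀ i j, ∑ k, ∑ l, g.mat m (chartAt (EE (2 * n)) m m) k l * e k i * e l j = if i = j then 1 else 0) ∧
        ∀ i j k l, ∑ a, ∑ b, ∑ c, ∑ f, riem (g.mat m) (chartAt (EE (2 * n)) m m) a b c f * e a i * e b j * e c k * e f l =
            if (i.1 < 3 ↔ j.1 < 3) then (lam / 2) * ((if i = k then 1 else 0) * (if j = l then 1 else 0) - (if i = l then 1 else 0) * (if j = k then 1 else 0))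
            else 0) := by
  rcases h with h | ⟨rfl, h⟩
  · obtain ⟨χ, h1, h2, h3⟩ := GE_main hn M g hK h
    refine ⟨χ, h1, h2, h3, fun h4 => ?_⟩
    subst h4
    intro lam hE h0 m
    obtain ⟨χ', h5, -, h6⟩ := einstein_six M g lam hE hK
    exact h6 (by rw [← G14_unique h1 h5, h0]) m
  · obtain ⟨χ, h1, h2, h3, h4⟩ := H56D.main (n := 3) hn M g hK (Or.inr ⟨rfl, h⟩)
    exact ⟨χ, h1, h2, fun ⟨m, hm⟩ => h3 ⟨m, hm.1⟩, h4⟩

end H56E
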