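import Pool.Agent.Lib.H56E.Defs
import Pool.Agent.Lib.H2K.F1

/-!
# H56E: curvature tensors of cluster type

Definitions used in the final statement (and `H56E.cln`, `H56E.AdmIn` in `Lib/H56E/Defs.lean`).
-/

set_option autoImplicit false

open scoped ContDiff Manifold
open Set

namespace H56E

open H31R H79G H30K H56C
open Pool.Agent.H69Hopf (Arr idA)
open H2K (complexCurvK)

/-- The cluster `a` has at most seven, or at most `3 k + 1` indices, and `R(ω, ω̄) + h |ω| ^ 2 ≤ 0` for the complex two-vectors `ω = z 0 ∧ w 0 + ... + z (k-1) ∧ w (k-1)` of the cluster (`|z ∧ w| ^ 2 = |z| ^ 2 |w| ^ 2 - |⟨z, w⟩| ^ 2`),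
`k ≥ 1`. -/
def CkIn (k : ℕ) (h : ℝ) {N : ℕ} (R : Arr N) (t : Fin N → ℕ) (a : ℕ) : Prop :=
  1 ≤ k ∧ ((Finset.univ.filter fun i => t i = a).card ≤ 7 ∨ (Finset.univ.filter fun i => t i = a).card ≤ 3 * k + 1) ∧
    ∀ z w : Fin k → Fin N → ℂ, (∀ l i, t i ≠ a → z l i = 0 ∧ w l i = 0) → complexCurvK (fun i j p q => R i j p q + h * idA N i j p q) z w ≤ 0

/-- **Curvature tensors of cluster type.** `s i`, `t i` = the class and the cluster of the index `i` (of an orthonormal basis), the clusters are unions of classes. (a) `R i j k l` is nonzero only if the classes of `i`, `j` are those of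
`k`, `l` in some order (the curvature operator preserves the spaces `V_α ∧ V_β`, where `V_α` is the space of the class `α`); (b) for `i`, `k` in the class `α` and `j`, `l` in the class `β` of another cluster
`R i j k l = δ_ik P_α(j, l) + δ_jl P_β(i, k)` (no condition if one of the two classes has only one index); (c) the clusters are admissible, or satisfy `CkIn`. -/
def ClusK (k : ℕ) (h : ℝ) {N : ℕ} (R : Arr N) : Prop :=
  ∃ (s t : Fin N → ℕ) (P : ℕ → Fin N → Fin N → ℝ), (∀ i j, s i = s j → t i = t j) ∧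
    (∀ i j k l, R i j k l ≠ 0 → (s i = s k ∧ s j = s l) ∨ (s i = s l ∧ s j = s k)) ∧
    (∀ i j k l, t i ≠ t j → s i = s k → s j = s l → R i j k l = (if i = k then P (s i) j l else 0) + (if j = l then P (s j) i k else 0)) ∧
    ∀ a, AdmIn s t a ∨ CkIn k h R t a

variable {d : ℕ}

/-- The curvature tensor `R` is of cluster type with respect to some basis (the columns of `E`) which is orthonormal for `G`. -/
def ClusAt (k : ℕ) (h : ℝ) (G : Matrix (Fin d) (Fin d) ℝ) (R : Fin d → Fin d → Fin d → Fin d → ℝ) : Prop :=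
  ∃ E : Matrix (Fin d) (Fin d) ℝ, E.transpose * G * E = 1 ∧
    ClusK k h (N := d) fun i j p q => ∑ a, ∑ b, ∑ c, ∑ e, R a b c e * E a i * E b j * E c p * E e q

variable {M : Type} [TopologicalSpace M] [ChartedSpace (EE d) M]

/-- Every nonempty open subset of `W` (in the chart `chartAt p`) contains a nonempty open set `U` such that (1) at some point of `U` the curvature tensor is of cluster type, or there is a Codazzi tensor on `U` which has (2) admissible
multiplicities at some point of `U`, or (3) exactly two eigenvalues, both of multiplicity at most `5`, at every point of `U`. -/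
def DenseClus (k : ℕ) (h : ℝ) (g : Ch.Metric d M) (p : M) (W : Set (EE d)) : Prop :=
  ∀ V : Set (EE d), V ⊆ W → IsOpen V → V.Nonempty → ∃ U : Set (EE d), U ⊆ V ∧ IsOpen U ∧ U.Nonempty ∧
    ((∃ y ∈ U, ClusAt k h (g.mat p y) (riem (g.mat p) y)) ∨
      ∃ b : EE d → Matrix (Fin d) (Fin d) ℝ, IsCodazzi (g.mat p) U b ∧ ((∃ y ∈ U, H56D.AdmAt (g.mat p y) (b y)) ∨ ∀ y ∈ U, TwoAt (g.mat p y) (b y)))

end H56E
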